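import Pool.Agent.MP_b9fb92_an.H82.Iet

/-! The three interval example and the induction on the number of intervals. -/

open Complex ComplexConjugate Filter Topology Finset

namespace Pool.Agent.MP_b9fb92_an.H82

/-- lengths of the base example -/
def mu3 (a : ℝ) : Fin 3 → ℝ := ![1, a, 1 - 2 * a]

lemma total3 (a : ℝ) : ∑ k, mu3 a k = 2 - a := by
  simp [mu3, Fin.sum_univ_three]; ring

lemma left3_0 (a : ℝ) : left (mu3 a) 0 = 0 := left_zero rfl
lemma left3_1 (a : ℝ) : left (mu3 a) 1 = 1 := by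
  rw [left_succ (i := 0) rfl, left3_0]; simp [mu3]
lemma left3_2 (a : ℝ) : left (mu3 a) 2 = 1 + a := by
  rw [left_succ (i := 1) rfl, left3_1]; simp [mu3]

lemma tau3_0 (a : ℝ) : tau Fin.revPerm (mu3 a) 0 = 1 - a := by
  rw [tau, left3_0, sum_filter, Fin.sum_univ_three]
  simp [mu3]; ring
lemma tau3_1 (a : ℝ) : tau Fin.revPerm (mu3 a) 1 = -(2 * a) := by
  rw [tau, left3_1, sum_filter, Fin.sum_univ_three]
  simp [mu3]
lemma tau3_2 (a : ℝ) : tau Fin.revPerm (mu3 a) 2 = -(1 + a) := by
  rw [tau, left3_2, sum_filter, Fin.sum_univ_three]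
  simp

theorem good3 : ∃ (μ : Fin 3 → ℝ) (g : ℝ → ℂ), Good Fin.revPerm μ g := by
  obtain ⟨P⟩ := exists_par
  obtain ⟨h, H⟩ := P.exists_curve
  have ha1 := P.ha1
  have ha2 := P.ha2
  have hpos : ∀ j, 0 < mu3 P.a j := by
    intro j
    fin_cases j <;> simp [mu3] <;> linarith
  have a0 : atom (mu3 P.a) 0 = Set.Ico 0 1 := by rw [atom, left3_0]; simp [mu3]
  have a1 : atom (mu3 P.a) 1 = Set.Ico 1 (1 + P.a) := by rw [atom, left3_1]; simp [mu3]
  have a2 : atom (mu3 P.a) 2 = Set.Ico (1 + P.a) (2 - P.a) := by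
    rw [atom, left3_2]; simp [mu3]; congr 1; ring
  have nv : ‖P.v ^ 2‖ = 1 := by rw [norm_pow, P.hv, one_pow]
  have nw : ‖conj P.v ^ 2‖ = 1 := by rw [norm_pow, norm_conj, P.hv, one_pow]
  set f := iet Fin.revPerm (mu3 P.a) with hf
  have f0 : ∀ y, P.a - 1 ≤ y → y < P.a → f (y + (1 - P.a)) = P.rot y + (1 - P.a) := by
    intro y y1 y2
    rw [hf, iet_eq hpos (j := 0) (by rw [a0]; constructor <;> linarith), tau3_0, Par.rot,
      if_pos (by linarith)]
  have f1 : ∀ y, P.a ≤ y → y < 2 * P.a → f (y + (1 - P.a)) = P.rot (P.rot y) + (1 - P.a) := by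
    intro y y1 y2
    have : P.rot y = y + (1 - P.a) := by rw [Par.rot, if_pos y2]
    rw [hf, iet_eq hpos (j := 1) (by rw [a1]; constructor <;> linarith), tau3_1, this, Par.rot,
      if_neg (by linarith)]
    ring
  have f2 : ∀ y, 2 * P.a ≤ y → y < 1 → f (y + (1 - P.a)) = P.rot y + (1 - P.a) := by
    intro y y1 y2
    rw [hf, iet_eq hpos (j := 2) (by rw [a2]; constructor <;> linarith), tau3_2, Par.rot,
      if_neg (by linarith)]
    ring
  refine ⟨mu3 P.a, fun x => h (x + (P.a - 1)), fun k k0 k1 => ⟨0, k0, by simp; omega⟩, by decide, hpos, ?_, ?_, ?_, ?_, ?_, ?_,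
    ?_⟩
  · intro x hx p q hpq hp hq
    rw [total3] at hq
    rw [dom, total3] at hx
    set y := x + (P.a - 1) with hy
    have y1 : P.a - 1 ≤ y := by linarith [hx.1]
    have y2 : y < 1 + P.a := by linarith [hx.2]
    have key : ∀ n : ℕ, (P.rot^[n] y < 1 → ∃ m : ℕ, f^[m] x = P.rot^[n] y + (1 - P.a)) ∧
        (1 ≤ P.rot^[n] y → ∃ m : ℕ, f^[m] x = P.rot (P.rot^[n] y) + (1 - P.a)) := by
      intro n
      induction n with
      | zero =>
        refine ⟨fun _ => ⟨0, by simp only [Function.iterate_zero, id, hy]; ring⟩, fun c => ?_⟩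
        simp only [Function.iterate_zero, id] at c
        linarith [hx.2]
      | succ n ih =>
        obtain ⟨i1, i2, -⟩ := P.rot_iter y y1 y2 n
        rw [Function.iterate_succ_apply']
        generalize P.rot^[n] y = z at *
        by_cases c1 : z < P.a
        · obtain ⟨m, hm⟩ := ih.1 (by linarith)
          refine ⟨fun _ => ⟨m + 1, by rw [Function.iterate_succ_apply', hm, f0 z i1 c1]⟩,
            fun c => ?_⟩
          rw [Par.rot, if_pos (by linarith)] at c
          linarith
        by_cases c2 : z < 2 * P.a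
        · obtain ⟨m, hm⟩ := ih.1 (by linarith)
          refine ⟨fun c => ?_, fun _ => ⟨m + 1, by
            rw [Function.iterate_succ_apply', hm, f1 z (not_lt.1 c1) c2]⟩⟩
          rw [Par.rot, if_pos c2] at c
          linarith
        have c4 : ¬ 1 ≤ P.rot z := by
          rw [Par.rot, if_neg c2]
          linarith
        refine ⟨fun _ => ?_, fun c => absurd c c4⟩
        by_cases c3 : z < 1
        · obtain ⟨m, hm⟩ := ih.1 c3
          exact ⟨m + 1, by rw [Function.iterate_succ_apply', hm, f2 z (not_lt.1 c2) c3]⟩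
        · exact ih.2 (not_lt.1 c3)
    obtain ⟨n, n1, n2⟩ := P.rot_dense y y1 y2 (p + (P.a - 1)) (q + (P.a - 1)) (by linarith)
      (by linarith) (by linarith)
    obtain ⟨m, hm⟩ := (key n).1 (by linarith)
    exact ⟨m, by rw [hm]; linarith, by rw [hm]; linarith⟩
  · have := H.cont
    fun_prop
  · intro x y x0 hxy y1
    rw [total3] at y1
    exact Par.inj H _ _ (by linarith) (by linarith) (by linarith)
  · intro j
    fin_cases j
    · refine ⟨_, P.r * P.v * (1 + P.r * P.v), nv, fun x hx => ?_⟩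
      simp only [Fin.zero_eta] at hx ⊢
      rw [a0] at hx
      have := Par.E1 H (x + (P.a - 1)) (by linarith [hx.1]) (by linarith [hx.2])
      rw [tau3_0, add_right_comm, this, Par.T1]
    · refine ⟨conj P.v ^ 2 * conj P.v ^ 2, P.T3 (P.T2 0), by rw [norm_mul, nw, one_mul],
        fun x hx => ?_⟩
      simp only [Fin.mk_one] at hx ⊢
      rw [a1] at hx
      have e1 := Par.E2 H (x + (P.a - 1)) (by linarith [hx.1]) (by linarith [hx.2])
      have e2 := Par.E3 H (x + (P.a - 1) + (1 - P.a)) (by linarith [hx.1]) (by linarith [hx.2])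
      have e3 : x + -(2 * P.a) + (P.a - 1) = x + (P.a - 1) + (1 - P.a) - (1 + P.a) := by ring
      rw [tau3_1, e3, e2, e1]
      simp only [Par.T3, Par.T2]
      ring
    · refine ⟨_, -1 - P.r * conj P.v, nw, fun x hx => ?_⟩
      simp only [Fin.reduceFinMk] at hx ⊢
      rw [a2] at hx
      have := Par.E3 H (x + (P.a - 1)) (by linarith [hx.1]) (by linarith [hx.2])
      rw [tau3_2, add_right_comm, ← sub_eq_add_neg, this, Par.T3]
  · intro j
    rw [total3]
    fin_cases j
    · simp only [Fin.zero_eta]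
      rw [left3_0]
      refine ⟨fun x x0 x1 => absurd x0 (not_le.2 x1), fun x x0 x1 => ?_⟩
      simpa using Par.sepA H (x + (P.a - 1)) (by linarith) (by linarith)
    · simp only [Fin.mk_one]
      rw [left3_1]
      have e : 1 + (P.a - 1) = P.a := by ring
      refine ⟨fun x x0 x1 => ?_, fun x x0 x1 => ?_⟩ <;> simp only [e]
      · exact Par.sepB2 H _ (by linarith) (by linarith)
      · exact Par.sepB1 H _ (by linarith) (by linarith)
    · simp only [Fin.reduceFinMk]
      rw [left3_2]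
      have e : 1 + P.a + (P.a - 1) = 2 * P.a := by ring
      refine ⟨fun x x0 x1 => ?_, fun x x0 x1 => ?_⟩ <;> simp only [e]
      · exact Par.sepC2 H _ (by linarith) (by linarith)
      · exact Par.sepC1 H _ (by linarith) (by linarith)
  · rw [total3]
    have e : 2 - P.a + (P.a - 1) = 1 := by ring
    refine ⟨fun x x0 x1 => ?_, fun x x0 x1 => absurd x1 (not_le.2 x0)⟩
    simp only [e]
    exact Par.sepD H _ (by linarith) (by linarith)
  · intro p q hpq hp hq hG
    rw [total3] at hq
    refine Par.not_GC H (p + (P.a - 1)) (q + (P.a - 1)) (by linarith) (by linarith) (by linarith) ?_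
    exact hG.move 1 0 norm_one fun x _ _ => by simp

theorem good_all (d : ℕ) (hd : 3 ≤ d) :
    ∃ (π : Equiv.Perm (Fin d)) (μ : Fin d → ℝ) (g : ℝ → ℂ), Good π μ g := by
  induction d, hd using Nat.le_induction with
  | base => obtain ⟨μ, g, G⟩ := good3; exact ⟨_, μ, g, G⟩
  | succ d hd ih => obtain ⟨π, μ, g, G⟩ := ih; exact G.step hd

lemma exists_angle (u : ℂ) (hu : ‖u‖ = 1) :
    ∃ θ : ℝ, θ ∈ Set.Ico 0 (2 * Real.pi) ∧ exp (θ * I) = u := by
  have h1 := norm_mul_exp_arg_mul_I u
  rw [hu, ofReal_one, one_mul] at h1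
  have h2 := neg_pi_lt_arg u
  have h3 := arg_le_pi u
  have h4 := Real.pi_pos
  by_cases h : 0 ≤ arg u
  · exact ⟨arg u, ⟨h, by linarith⟩, h1⟩
  · refine ⟨arg u + 2 * Real.pi, ⟨by linarith, by linarith⟩, ?_⟩
    push_cast
    rw [add_mul, exp_add, h1, exp_two_pi_mul_I, mul_one]

/-- The vertical strips. -/
def strip {d : ℕ} (μ : Fin d → ℝ) (h : ℝ → ℂ) (j : Fin d) : Set ℂ :=
  {z | (j.val = 0 ∨ (h (left μ j)).re ≤ z.re) ∧
    (j.val + 1 = d ∨ z.re < (h (left μ j + μ j)).re)}

variable {d : ℕ} {μ : Fin d → ℝ} {π : Equiv.Perm (Fin d)} {h : ℝ → ℂ}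

lemma strip_convex (j : Fin d) : Convex ℝ (strip μ h j) := by
  refine Convex.inter (s := {z : ℂ | j.val = 0 ∨ (h (left μ j)).re ≤ z.re})
    (t := {z : ℂ | j.val + 1 = d ∨ z.re < (h (left μ j + μ j)).re}) ?_ ?_
  · by_cases c : j.val = 0
    · simpa [c] using convex_univ
    · simpa [c] using convex_halfSpace_re_ge _
  · by_cases c : j.val + 1 = d
    · simpa [c] using convex_univ
    · simpa [c] using convex_halfSpace_re_lt _

lemma strip_disjoint (G : Good π μ h) : Pairwise (Function.onFun Disjoint (strip μ h)) := by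
  have key : ∀ i j : Fin d, i < j → Disjoint (strip μ h i) (strip μ h j) := by
    intro i j hij
    rw [Set.disjoint_left]
    intro z hi hj
    have hlt : i.val < j.val := hij
    have h1 := hi.2.resolve_left (by have := j.2; omega)
    have h2 := hj.1.resolve_left (by omega)
    rcases (left_add_le G.pos hij).eq_or_lt with e | e
    · rw [e] at h1; linarith
    · have := (G.sepL j).1 _ (by linarith [left_nonneg G.pos i, G.pos i]) e
      linarith
  intro i j hij
  rcases lt_or_gt_of_ne hij with c | c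
  · exact key i j c
  · exact (key j i c).symm

lemma strip_cover (hd : 0 < d) (z : ℂ) : ∃ j, z ∈ strip μ h j := by
  classical
  obtain ⟨j, hj, hmax⟩ :=
    (univ.filter fun j : Fin d => j.val = 0 ∨ (h (left μ j)).re ≤ z.re).exists_max_image id
    ⟨⟨0, hd⟩, by simp⟩
  simp only [mem_filter, mem_univ, true_and, id] at hj hmax
  refine ⟨j, hj, ?_⟩
  by_cases hl : j.val + 1 = d
  · exact Or.inl hl
  · right
    have hlt : j.val + 1 < d := by have := j.2; omega
    rw [← left_succ (j := ⟨j.val + 1, hlt⟩) rfl]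
    by_contra hc
    have := hmax _ (Or.inr (not_lt.1 hc))
    simp [Fin.le_def] at this

lemma mapsTo_strip (G : Good π μ h) (j : Fin d) : Set.MapsTo h (atom μ j) (strip μ h j) := by
  intro x hx
  have hx' := atom_subset G.pos j hx
  refine ⟨Or.inr ?_, Or.inr ((G.sepR j).1 x hx'.1 hx.2)⟩
  rcases hx.1.eq_or_lt with e | e
  · rw [e]
  · exact ((G.sepL j).2 x e hx'.2.le).le

lemma injOn_Icc (G : Good π μ h) : Set.InjOn h (Set.Icc 0 (∑ k, μ k)) := by
  intro x hx y hy e
  rcases lt_trichotomy x y with c | c | c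
  · exact absurd e (G.inj x y hx.1 c hy.2)
  · exact c
  · exact absurd e.symm (G.inj y x hy.1 c hx.2)

lemma isEmbedding_restrict (G : Good π μ h) (s : Set ℝ) (hs : s ⊆ Set.Icc 0 (∑ k, μ k)) :
    IsEmbedding (fun x : s => h x) := by
  have h1 : IsEmbedding (fun x : Set.Icc 0 (∑ k, μ k) => h x) :=
    ((G.cont.comp continuous_subtype_val).isClosedEmbedding
      (Set.injOn_iff_injective.1 (injOn_Icc G))).isEmbedding
  exact h1.comp (IsEmbedding.inclusion hs)

lemma dense_orbit (G : Good π μ h) (x : ℝ) (hx : x ∈ dom μ) :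
    dom μ ⊆ closure (Set.range fun n : ℕ => (iet π μ)^[n] x) := by
  intro y hy
  rw [Metric.mem_closure_iff]
  intro ε hε
  obtain ⟨n, n1, n2⟩ := G.minimal x hx y (min (y + ε) (∑ k, μ k)) (lt_min (by linarith) hy.2) hy.1
    (min_le_right _ _)
  refine ⟨_, ⟨n, rfl⟩, ?_⟩
  rw [Real.dist_eq, abs_lt]
  have := min_le_left (y + ε) (∑ k, μ k)
  constructor <;> linarith

end Pool.Agent.MP_b9fb92_an.H82
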