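import Mathlib

/-! Existence of the self-similar curve. -/

open Complex ComplexConjugate BoundedContinuousFunction Filter Topology

namespace Pool.Agent.MP_b9fb92_an.H82

/-- Parameters of the construction. -/
structure Par where
  /-- the silver number -/
  a : ℝ
  /-- contraction ratio in the plane -/
  r : ℝ
  /-- half rotation -/
  v : ℂ
  ha : a ^ 2 + 2 * a = 1
  ha1 : 0.41 < a
  ha2 : a < 0.42
  hv : ‖v‖ = 1
  hr : (r : ℂ) * (v + conj v) = 1 - r ^ 2
  hr0 : 0 < r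
  hr1 : r ≤ 1 / 2
  him : v.im ≠ 0
  c1 : ‖r * v - a‖ ≤ 1 / 1000
  c2 : ‖r * v ^ 3 - a‖ ≤ 1 / 1000
  c3 : ‖r * v * (1 + r * v) - (1 - a)‖ ≤ 1 / 1000
  c4 : ‖v ^ 2 + r * v - (1 + a)‖ ≤ 1 / 1000

lemma exists_par : Nonempty Par := by
  set a : ℝ := √2 - 1 with ha_def
  have h2 : √2 ^ 2 = 2 := Real.sq_sqrt (by norm_num)
  have ha : a ^ 2 + 2 * a = 1 := by rw [ha_def]; nlinarith
  have ha1 : 0.41 < a := by
    have : (1.41 : ℝ) < √2 := Real.lt_sqrt_of_sq_lt (by norm_num)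
    rw [ha_def]; linarith
  have ha2 : a < 0.42 := by
    have : √2 < (1.42 : ℝ) := (Real.sqrt_lt' (by norm_num)).2 (by norm_num)
    rw [ha_def]; linarith
  let v : ℝ → ℂ := fun s => exp (s * I)
  let r : ℝ → ℝ := fun s => √(1 + Real.cos s ^ 2) - Real.cos s
  have hv0 : v 0 = 1 := by simp [v]
  have hr0 : r 0 = a := by simp only [r, Real.cos_zero, ha_def]; norm_num
  have hvc : Continuous v := by fun_prop
  have hrc : Continuous r := by fun_prop
  have hac : ((a : ℂ)) ^ 2 + 2 * a = 1 := by exact_mod_cast ha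
  have key : ∀ F : ℝ → ℂ, Continuous F → F 0 = 0 → ∀ᶠ s in 𝓝 (0 : ℝ), ‖F s‖ ≤ 1 / 1000 := by
    intro F hF h0
    have : ContinuousAt (fun s => ‖F s‖) 0 := hF.norm.continuousAt
    exact this.eventually (eventually_le_nhds (by simp [h0]))
  have e1 := key (fun s => r s * v s - a) (by fun_prop) (by simp [hv0, hr0])
  have e2 := key (fun s => r s * v s ^ 3 - a) (by fun_prop) (by simp [hv0, hr0])
  have e3 := key (fun s => r s * v s * (1 + r s * v s) - (1 - a)) (by fun_prop)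
    (by simp only [hv0, hr0]; linear_combination hac)
  have e4 := key (fun s => v s ^ 2 + r s * v s - (1 + a)) (by fun_prop) (by simp [hv0, hr0])
  have e5 : ∀ᶠ s in 𝓝 (0 : ℝ), 0 < r s :=
    hrc.continuousAt.eventually (eventually_gt_nhds (by rw [hr0]; linarith))
  have e6 : ∀ᶠ s in 𝓝 (0 : ℝ), r s ≤ 1 / 2 :=
    hrc.continuousAt.eventually (eventually_le_nhds (by rw [hr0]; linarith))
  have e7 : ∀ᶠ s in 𝓝 (0 : ℝ), s < Real.pi := eventually_lt_nhds Real.pi_pos
  have e8 : ∀ᶠ s in 𝓝[>] (0 : ℝ), 0 < s := self_mem_nhdsWithin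
  obtain ⟨s, ⟨f1, f2, f3, f4, f5, f6, f7⟩, f8⟩ :=
    (((e1.and (e2.and (e3.and (e4.and (e5.and (e6.and e7)))))).filter_mono
      nhdsWithin_le_nhds).and e8).exists
  refine ⟨⟨a, r s, v s, ha, ha1, ha2, norm_exp_ofReal_mul_I s, ?_, f5, f6, ?_, f1, f2, f3, f4⟩⟩
  · have h1 : v s + conj (v s) = (2 * Real.cos s : ℝ) := by
      rw [add_conj]; simp [v, exp_ofReal_mul_I_re]
    rw [h1]
    have h3 : √(1 + Real.cos s ^ 2) ^ 2 = 1 + Real.cos s ^ 2 := Real.sq_sqrt (by positivity)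
    have h4 : r s * (2 * Real.cos s) = 1 - r s ^ 2 := by simp only [r]; nlinarith
    exact_mod_cast h4
  · simp only [v, exp_ofReal_mul_I_im]
    exact (Real.sin_pos_of_pos_of_lt_pi f8 f7).ne'

namespace Par

variable (P : Par)

lemma hvw : P.v * conj P.v = 1 := by
  rw [mul_conj, normSq_eq_norm_sq, P.hv]; simp

lemma hinv : P.a * (2 + P.a) = 1 := by linear_combination P.ha

/-- first branch -/
noncomputable def G0 (z : ℂ) : ℂ := -(P.r * P.v) * conj z
/-- second branch -/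
noncomputable def G1 (z : ℂ) : ℂ := -(P.r * P.v ^ 3) * conj z + P.r * P.v * (1 + P.r * P.v)
/-- third branch -/
noncomputable def G2 (z : ℂ) : ℂ := -(P.r * P.v ^ 3) * conj z + (P.v ^ 2 + P.r * P.v)

lemma norm_aux (c : ℂ) (hc : ‖c‖ = 1) (b z z' : ℂ) :
    ‖(-(P.r * c) * conj z + b) - (-(P.r * c) * conj z' + b)‖ = P.r * ‖z - z'‖ := by
  have : (-(P.r * c) * conj z + b) - (-(P.r * c) * conj z' + b) = -(P.r * c) * conj (z - z') := by
    rw [map_sub]; ring
  rw [this, norm_mul, norm_neg, norm_mul, hc, norm_conj, norm_real, Real.norm_eq_abs,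
    abs_of_pos P.hr0, mul_one]

lemma norm_G0 (z z' : ℂ) : ‖P.G0 z - P.G0 z'‖ = P.r * ‖z - z'‖ := by
  simpa [G0] using P.norm_aux P.v P.hv 0 z z'

lemma norm_G1 (z z' : ℂ) : ‖P.G1 z - P.G1 z'‖ = P.r * ‖z - z'‖ :=
  P.norm_aux (P.v ^ 3) (by rw [norm_pow, P.hv, one_pow]) _ z z'

lemma norm_G2 (z z' : ℂ) : ‖P.G2 z - P.G2 z'‖ = P.r * ‖z - z'‖ :=
  P.norm_aux (P.v ^ 3) (by rw [norm_pow, P.hv, one_pow]) _ z z'

/-- left vertex -/
noncomputable def A0 : ℂ := -(P.r * (conj P.v + P.r))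
/-- right vertex -/
noncomputable def A3 : ℂ := P.v ^ 2 + P.r * P.v

lemma G0_A3 : P.G0 P.A3 = P.A0 := by
  have h1 := P.hvw
  simp only [G0, A3, A0, map_add, map_mul, map_pow, conj_ofReal]
  grind

lemma G0_zero : P.G0 0 = 0 := by simp [G0]

lemma G1_A3 : P.G1 P.A3 = 0 := by
  have h1 := P.hvw
  simp only [G1, A3, map_add, map_mul, map_pow, conj_ofReal]
  grind

lemma G2_zero : P.G2 0 = P.A3 := by simp [G2, A3]

lemma G1_A0 : P.G1 P.A0 = P.G2 P.A3 := by
  have h1 := P.hvw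
  have h2 := P.hr
  simp only [G1, G2, A3, A0, map_add, map_mul, map_pow, map_neg, conj_ofReal, conj_conj]
  grind

/-- The closed set of admissible curves. -/
def K : Set (ℝ →ᵇ ℂ) := {g | g (P.a - 1) = P.A0 ∧ g 0 = 0 ∧ g (1 + P.a) = P.A3}

lemma isClosed_K : IsClosed P.K := by
  refine IsClosed.inter (isClosed_eq ?_ continuous_const)
    (IsClosed.inter (isClosed_eq ?_ continuous_const) (isClosed_eq ?_ continuous_const)) <;>
    exact continuous_eval_const _

lemma K_nonempty : P.K.Nonempty := by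
  have h1 := P.ha1
  have h2 := P.ha2
  let f : ℝ → ℂ := fun x => P.A0 * (max 0 (min 1 (x / (P.a - 1))) : ℝ) +
    P.A3 * (max 0 (min 1 (x / (1 + P.a))) : ℝ)
  have hf : Continuous f := by fun_prop
  have hb : ∀ t : ℝ, ‖((max 0 (min 1 t) : ℝ) : ℂ)‖ ≤ 1 := by
    intro t
    rw [norm_real, Real.norm_eq_abs, abs_of_nonneg (le_max_left _ _)]
    exact max_le zero_le_one (min_le_left _ _)
  refine ⟨ofNormedAddCommGroup f hf (‖P.A0‖ + ‖P.A3‖) fun x => ?_, ?_, ?_, ?_⟩
  · refine (norm_add_le _ _).trans (add_le_add ?_ ?_) <;> rw [norm_mul] <;>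
      exact mul_le_of_le_one_right (norm_nonneg _) (hb _)
  · have e1 : (P.a - 1) / (P.a - 1) = 1 := div_self (by linarith)
    have e2 : (P.a - 1) / (1 + P.a) ≤ 0 := div_nonpos_of_nonpos_of_nonneg (by linarith) (by linarith)
    have e3 : max 0 (min 1 ((P.a - 1) / (1 + P.a))) = 0 :=
      max_eq_left ((min_le_right _ _).trans e2)
    simp [f, e1, e3]
  · simp [f]
  · have e1 : (1 + P.a) / (1 + P.a) = 1 := div_self (by linarith)
    have e2 : (1 + P.a) / (P.a - 1) ≤ 0 := div_nonpos_of_nonneg_of_nonpos (by linarith) (by linarith)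
    have e3 : max 0 (min 1 ((1 + P.a) / (P.a - 1))) = 0 :=
      max_eq_left ((min_le_right _ _).trans e2)
    simp [f, e1, e3]

/-- The operator on functions. -/
noncomputable def phi (g : ℝ → ℂ) (x : ℝ) : ℂ :=
  if x ≤ 0 then P.G0 (g (-x * (2 + P.a)))
  else if x ≤ 2 * P.a then P.G1 (g ((1 - P.a - x) * (2 + P.a)))
  else P.G2 (g ((1 + P.a - x) * (2 + P.a)))

lemma phi_cont (g : ℝ →ᵇ ℂ) (hg : g ∈ P.K) : Continuous (P.phi g) := by
  obtain ⟨h1, h2, h3⟩ := hg
  have ha := P.ha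
  have ha1 := P.ha1
  have hc := g.continuous
  unfold phi
  refine Continuous.if_le (by unfold G0; fun_prop) ?_ continuous_id continuous_const ?_
  · refine Continuous.if_le (by unfold G1; fun_prop) (by unfold G2; fun_prop) continuous_id
      continuous_const ?_
    intro x hx
    have hx' : x = 2 * P.a := hx
    have e1 : (1 - P.a - x) * (2 + P.a) = P.a - 1 := by rw [hx']; linear_combination (-3) * ha
    have e2 : (1 + P.a - x) * (2 + P.a) = 1 + P.a := by rw [hx']; linear_combination (-1) * ha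
    rw [e1, e2, h1, h3, G1_A0]
  · intro x hx
    have hx' : x = 0 := hx
    have e2 : (1 - P.a - x) * (2 + P.a) = 1 + P.a := by rw [hx']; linear_combination (-1) * ha
    rw [if_pos (by rw [hx']; linarith), e2, h3, G1_A3, hx']
    simp [h2, G0_zero]

lemma phi_dist (g g' : ℝ → ℂ) (C : ℝ) (h : ∀ x, ‖g x - g' x‖ ≤ C) (x : ℝ) :
    ‖P.phi g x - P.phi g' x‖ ≤ P.r * C := by
  unfold phi
  split_ifs
  · rw [norm_G0]; exact mul_le_mul_of_nonneg_left (h _) P.hr0.le
  · rw [norm_G1]; exact mul_le_mul_of_nonneg_left (h _) P.hr0.le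
  · rw [norm_G2]; exact mul_le_mul_of_nonneg_left (h _) P.hr0.le

lemma phi_bound (g : ℝ →ᵇ ℂ) (x : ℝ) :
    ‖P.phi g x‖ ≤ P.r * ‖g‖ + (‖P.G0 0‖ + ‖P.G1 0‖ + ‖P.G2 0‖) := by
  have h1 := P.phi_dist g (fun _ => 0) ‖g‖ (fun x => by simpa using g.norm_coe_le_norm x) x
  have h2 : ‖P.phi (fun _ => 0) x‖ ≤ ‖P.G0 0‖ + ‖P.G1 0‖ + ‖P.G2 0‖ := by
    have := norm_nonneg (P.G0 0)
    have := norm_nonneg (P.G1 0)
    have := norm_nonneg (P.G2 0)
    unfold phi
    split_ifs <;> linarith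
  have h3 := norm_add_le (P.phi g x - P.phi (fun _ => 0) x) (P.phi (fun _ => 0) x)
  rw [sub_add_cancel] at h3
  linarith

/-- The operator on the closed set. -/
noncomputable def Phi (g : P.K) : P.K :=
  ⟨ofNormedAddCommGroup (P.phi g.1) (P.phi_cont g.1 g.2) _ (P.phi_bound g.1), by
    obtain ⟨h1, h2, h3⟩ := g.2
    have ha := P.ha
    have ha1 := P.ha1
    have ha2 := P.ha2
    refine ⟨?_, ?_, ?_⟩
    · change P.phi g.1 _ = _
      have e2 : -(P.a - 1) * (2 + P.a) = 1 + P.a := by linear_combination (-1) * ha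
      rw [phi, if_pos (by linarith), e2, h3, G0_A3]
    · change P.phi g.1 _ = _
      rw [phi, if_pos le_rfl]
      simp [h2, G0_zero]
    · change P.phi g.1 _ = _
      rw [phi, if_neg (by linarith), if_neg (by linarith)]
      simp [h2, G2_zero]⟩

lemma exists_fixed : ∃ g ∈ P.K, ∀ x, g x = P.phi g x := by
  have : CompleteSpace P.K := P.isClosed_K.completeSpace_coe
  have : Nonempty P.K := P.K_nonempty.to_subtype
  have hc : ContractingWith ⟨P.r, P.hr0.le⟩ P.Phi := by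
    refine ⟨?_, LipschitzWith.of_dist_le_mul fun g g' => ?_⟩
    · have := P.hr1
      change P.r < 1
      linarith
    · change dist (P.Phi g).1 (P.Phi g').1 ≤ P.r * dist g.1 g'.1
      rw [dist_le (mul_nonneg P.hr0.le dist_nonneg)]
      intro x
      rw [dist_eq_norm]
      exact P.phi_dist g.1 g'.1 _ (fun x => by
        rw [← dist_eq_norm]; exact dist_coe_le_dist x) x
  have := hc.fixedPoint_isFixedPt
  refine ⟨(hc.fixedPoint P.Phi).1, (hc.fixedPoint P.Phi).2, fun x => ?_⟩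
  conv_lhs => rw [← this.eq]
  rfl

/-- The defining properties of the curve. -/
structure IsCurve (h : ℝ → ℂ) : Prop where
  cont : Continuous h
  bdd : ∃ M, ∀ x, ‖h x‖ ≤ M
  v0 : h (P.a - 1) = P.A0
  v1 : h 0 = 0
  v3 : h (1 + P.a) = P.A3
  b0 : ∀ y, 0 ≤ y → h (-P.a * y) = P.G0 (h y)
  b1 : ∀ y, P.a - 1 ≤ y → y ≤ 1 + P.a → h (1 - P.a - P.a * y) = P.G1 (h y)
  b2 : ∀ y, y ≤ 1 + P.a → h (1 + P.a - P.a * y) = P.G2 (h y)

lemma exists_curve : ∃ h, P.IsCurve h := by
  obtain ⟨g, ⟨h1, h2, h3⟩, hg⟩ := P.exists_fixed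
  have ha := P.ha
  have ha1 := P.ha1
  have ha2 := P.ha2
  have hi := P.hinv
  refine ⟨g, g.continuous, ⟨‖g‖, g.norm_coe_le_norm⟩, h1, h2, h3, ?_, ?_, ?_⟩
  · intro y hy
    rw [hg, phi, if_pos (by nlinarith)]
    congr 2
    linear_combination y * hi
  · intro y hy1 hy2
    rcases hy2.eq_or_lt with rfl | hy2
    · have : 1 - P.a - P.a * (1 + P.a) = 0 := by linear_combination (-1) * ha
      rw [this, h2, h3, G1_A3]
    · rw [hg, phi, if_neg (by nlinarith), if_pos (by nlinarith)]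
      congr 2
      linear_combination y * hi
  · intro y hy2
    rcases hy2.eq_or_lt with rfl | hy2
    · have e1 : 1 + P.a - P.a * (1 + P.a) = 2 * P.a := by linear_combination (-1) * ha
      have e2 : (1 - P.a - 2 * P.a) * (2 + P.a) = P.a - 1 := by linear_combination (-3) * ha
      rw [e1, hg, phi, if_neg (by linarith), if_pos le_rfl, e2, h1, h3, G1_A0]
    · rw [hg, phi, if_neg (by nlinarith), if_neg (by nlinarith)]
      congr 2
      linear_combination y * hi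

end Par

end Pool.Agent.MP_b9fb92_an.H82
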