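import Mathlib

/-! Interval exchange transformations. -/

namespace Pool.Agent.MP_b9fb92_an.H82

/-- Left end point of the `j`-th interval. -/
def left {d : ℕ} (μ : Fin d → ℝ) (j : Fin d) : ℝ :=
  ∑ k ∈ Finset.univ.filter (fun k => k < j), μ k

/-- The `j`-th interval. -/
def atom {d : ℕ} (μ : Fin d → ℝ) (j : Fin d) : Set ℝ :=
  Set.Ico (left μ j) (left μ j + μ j)

/-- The whole interval. -/
def dom {d : ℕ} (μ : Fin d → ℝ) : Set ℝ :=
  Set.Ico 0 (∑ k, μ k)

/-- The translation length on the `j`-th interval. -/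
def tau {d : ℕ} (π : Equiv.Perm (Fin d)) (μ : Fin d → ℝ) (j : Fin d) : ℝ :=
  (∑ k ∈ Finset.univ.filter (fun k => π k < π j), μ k) - left μ j

/-- The interval exchange map. -/
noncomputable def iet {d : ℕ} (π : Equiv.Perm (Fin d)) (μ : Fin d → ℝ) (x : ℝ) : ℝ :=
  x + ∑ j, (atom μ j).indicator (fun _ => tau π μ j) x

end Pool.Agent.MP_b9fb92_an.H82
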