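import Pool.Agent.MP_b9fb92_an.H82.Curve

/-! Dynamics, closeness, separation and injectivity of the curve. -/

open Complex ComplexConjugate Filter Topology

namespace Pool.Agent.MP_b9fb92_an.H82

namespace Par

variable (P : Par)

/-- first isometry -/
noncomputable def T1 (z : ℂ) : ℂ := P.v ^ 2 * z + P.r * P.v * (1 + P.r * P.v)
/-- second isometry -/
noncomputable def T2 (z : ℂ) : ℂ := conj P.v ^ 2 * z + (P.v ^ 2 - P.r * conj P.v)
/-- third isometry -/
noncomputable def T3 (z : ℂ) : ℂ := conj P.v ^ 2 * z + (-1 - P.r * conj P.v)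

lemma T1_G0 (z : ℂ) : P.T1 (P.G0 z) = P.G1 z := by
  simp only [T1, G0, G1]; ring

lemma T3_G2 (z : ℂ) : P.T3 (P.G2 z) = P.G0 z := by
  have h1 := P.hvw
  simp only [T3, G0, G2]
  grind

lemma G0_T3 (z : ℂ) : P.G0 (P.T3 z) = P.G1 z := by
  simp only [T3, G0, G1, map_add, map_mul, map_pow, map_sub, map_neg, map_one, conj_ofReal,
    conj_conj]
  ring

lemma G1_T3 (z : ℂ) : P.G1 (P.T3 z) = P.T1 (P.G1 z) := by
  rw [← T1_G0, G0_T3]

lemma G2_T2 (z : ℂ) : P.G2 (P.T2 z) = P.T1 (P.G1 z) := by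
  have h1 := P.hvw
  have h2 := P.hr
  simp only [T1, T2, G1, G2, map_add, map_mul, map_pow, map_sub, conj_ofReal, conj_conj]
  grind

lemma G2_T1 (z : ℂ) : P.G2 (P.T1 z) = P.T2 (P.G1 z) := by
  have h1 := P.hvw
  have h2 := P.hr
  simp only [T1, T2, G1, G2, map_add, map_mul, map_pow, map_one, conj_ofReal]
  grind

variable {P} {h : ℝ → ℂ} (H : P.IsCurve h)
include H

lemma E3 (x : ℝ) (h1 : 2 * P.a ≤ x) (h2 : x ≤ 1 + P.a) : h (x - (1 + P.a)) = P.T3 (h x) := by
  have ha := P.ha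
  have ha1 := P.ha1
  have hi := P.hinv
  have e1 := H.b0 ((1 + P.a - x) * (2 + P.a)) (by nlinarith)
  have e2 := H.b2 ((1 + P.a - x) * (2 + P.a)) (by nlinarith)
  have f1 : -P.a * ((1 + P.a - x) * (2 + P.a)) = x - (1 + P.a) := by
    linear_combination (x - (1 + P.a)) * hi
  have f2 : 1 + P.a - P.a * ((1 + P.a - x) * (2 + P.a)) = x := by
    linear_combination (x - (1 + P.a)) * hi
  rw [f1] at e1
  rw [f2] at e2
  rw [e1, e2, T3_G2]

lemma b0' (y : ℝ) (h1 : P.a - 1 ≤ y) : h (-P.a * y) = P.G0 (h y) := by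
  rcases le_total 0 y with hy | hy
  · exact H.b0 y hy
  have ha := P.ha
  have ha1 := P.ha1
  have ha2 := P.ha2
  have e1 := H.b1 (y + (1 + P.a)) (by linarith) (by linarith)
  have e2 := E3 H (y + (1 + P.a)) (by linarith) (by linarith)
  rw [add_sub_cancel_right] at e2
  rw [e2, G0_T3, ← e1]
  congr 1
  linear_combination ha

lemma E12_aux : ∃ C : ℝ, ∀ n : ℕ,
    (∀ x, P.a - 1 ≤ x → x ≤ P.a → ‖h (x + (1 - P.a)) - P.T1 (h x)‖ ≤ C * P.r ^ n) ∧
    (∀ x, P.a ≤ x → x ≤ 2 * P.a → ‖h (x + (1 - P.a)) - P.T2 (h x)‖ ≤ C * P.r ^ n) := by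
  obtain ⟨M, hM⟩ := H.bdd
  have ha := P.ha
  have ha1 := P.ha1
  have ha2 := P.ha2
  have hi := P.hinv
  have hM0 : 0 ≤ M := (norm_nonneg _).trans (hM 0)
  refine ⟨2 * M + ‖P.T1 0‖ + ‖P.T2 0‖, fun n => ?_⟩
  induction n with
  | zero =>
    have n1 := norm_nonneg (P.T1 0)
    have n2 := norm_nonneg (P.T2 0)
    constructor
    · intro x _ _
      have : h (x + (1 - P.a)) - P.T1 (h x) = h (x + (1 - P.a)) - P.v ^ 2 * h x - P.T1 0 := by
        simp only [T1]; ring
      rw [this]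
      have h1 := norm_sub_le (h (x + (1 - P.a)) - P.v ^ 2 * h x) (P.T1 0)
      have h2 := norm_sub_le (h (x + (1 - P.a))) (P.v ^ 2 * h x)
      rw [norm_mul, norm_pow, P.hv] at h2
      have := hM x
      have := hM (x + (1 - P.a))
      linarith
    · intro x _ _
      have : h (x + (1 - P.a)) - P.T2 (h x) = h (x + (1 - P.a)) - conj P.v ^ 2 * h x - P.T2 0 := by
        simp only [T2]; ring
      rw [this]
      have h1 := norm_sub_le (h (x + (1 - P.a)) - conj P.v ^ 2 * h x) (P.T2 0)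
      have h2 := norm_sub_le (h (x + (1 - P.a))) (conj P.v ^ 2 * h x)
      rw [norm_mul, norm_pow, norm_conj, P.hv] at h2
      have := hM x
      have := hM (x + (1 - P.a))
      linarith
  | succ n ih =>
    obtain ⟨ih1, ih2⟩ := ih
    set C := 2 * M + ‖P.T1 0‖ + ‖P.T2 0‖ with hC
    have hC0 : 0 ≤ C * P.r ^ (n + 1) := by have := P.hr0; positivity
    constructor
    · intro x h1 h2
      rcases le_total x (3 * P.a - 1) with h3 | h3
      · have e1 := b0' H (-x * (2 + P.a)) (by nlinarith)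
        have e2 := H.b1 (-x * (2 + P.a)) (by nlinarith) (by nlinarith)
        have f1 : -P.a * (-x * (2 + P.a)) = x := by linear_combination x * hi
        have f2 : 1 - P.a - P.a * (-x * (2 + P.a)) = x + (1 - P.a) := by linear_combination x * hi
        rw [f1] at e1
        rw [f2] at e2
        rw [e1, e2, T1_G0, sub_self, norm_zero]
        exact hC0
      · set y := (1 - P.a - x) * (2 + P.a) with hy
        have y1 : P.a ≤ y := by nlinarith
        have y2 : y ≤ 2 * P.a := by nlinarith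
        have e1 := H.b1 y (by linarith) (by linarith)
        have e2 := H.b2 (y + (1 - P.a)) (by linarith)
        have f1 : 1 - P.a - P.a * y = x := by rw [hy]; linear_combination (x - (1 - P.a)) * hi
        have f2 : 1 + P.a - P.a * (y + (1 - P.a)) = x + (1 - P.a) := by
          rw [← f1]; linear_combination ha
        rw [f1] at e1
        rw [f2] at e2
        rw [e1, e2, ← G2_T2, norm_G2, pow_succ]
        have := mul_le_mul_of_nonneg_left (ih2 y y1 y2) P.hr0.le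
        linarith
    · intro x h1 h2
      set y := (1 - P.a - x) * (2 + P.a) with hy
      have y1 : P.a - 1 ≤ y := by nlinarith
      have y2 : y ≤ P.a := by nlinarith
      have e1 := H.b1 y (by linarith) (by linarith)
      have e2 := H.b2 (y + (1 - P.a)) (by linarith)
      have f1 : 1 - P.a - P.a * y = x := by rw [hy]; linear_combination (x - (1 - P.a)) * hi
      have f2 : 1 + P.a - P.a * (y + (1 - P.a)) = x + (1 - P.a) := by
        rw [← f1]; linear_combination ha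
      rw [f1] at e1
      rw [f2] at e2
      rw [e1, e2, ← G2_T1, norm_G2, pow_succ]
      have := mul_le_mul_of_nonneg_left (ih1 y y1 y2) P.hr0.le
      linarith

omit H in
lemma eq_of_le_pow {z w : ℂ} {C : ℝ} (hz : ∀ n : ℕ, ‖z - w‖ ≤ C * P.r ^ n) : z = w := by
  have h1 : Tendsto (fun n : ℕ => C * P.r ^ n) atTop (𝓝 (C * 0)) :=
    (tendsto_pow_atTop_nhds_zero_of_lt_one P.hr0.le (by linarith [P.hr1])).const_mul C
  rw [mul_zero] at h1
  have := ge_of_tendsto' h1 hz
  exact sub_eq_zero.1 (norm_le_zero_iff.1 this)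

lemma E1 (x : ℝ) (h1 : P.a - 1 ≤ x) (h2 : x ≤ P.a) : h (x + (1 - P.a)) = P.T1 (h x) := by
  obtain ⟨C, hC⟩ := E12_aux H
  exact eq_of_le_pow (P := P) fun n => (hC n).1 x h1 h2

lemma E2 (x : ℝ) (h1 : P.a ≤ x) (h2 : x ≤ 2 * P.a) : h (x + (1 - P.a)) = P.T2 (h x) := by
  obtain ⟨C, hC⟩ := E12_aux H
  exact eq_of_le_pow (P := P) fun n => (hC n).2 x h1 h2

omit H in
lemma close_aux (c b z : ℂ) (b0 y : ℝ) (hn : ‖c‖ = P.r) (hc : ‖c - P.a‖ ≤ 1 / 1000)
    (hb : ‖b - b0‖ ≤ 1 / 1000) (hy : |y| ≤ 2) :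
    ‖(-c * conj z + b) - ((b0 - P.a * y : ℝ) : ℂ)‖ ≤ P.r * ‖z - y‖ + 3 / 1000 := by
  have : (-c * conj z + b) - ((b0 - P.a * y : ℝ) : ℂ) =
      -c * conj (z - y) + (-(c - P.a) * y + (b - b0)) := by
    rw [map_sub, conj_ofReal]; push_cast; ring
  rw [this]
  refine (norm_add_le _ _).trans (add_le_add ?_ ((norm_add_le _ _).trans ?_))
  · rw [norm_mul, norm_neg, hn, norm_conj]
  · rw [norm_mul, norm_neg, norm_real, Real.norm_eq_abs]
    have := mul_le_mul hc hy (abs_nonneg _) (by norm_num)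
    linarith

lemma close (x : ℝ) (h1 : P.a - 1 ≤ x) (h2 : x ≤ 1 + P.a) : ‖h x - x‖ ≤ 1 / 100 := by
  have ha := P.ha
  have ha1 := P.ha1
  have ha2 := P.ha2
  have hi := P.hinv
  have hc : ContinuousOn (fun x : ℝ => ‖h x - x‖) (Set.Icc (P.a - 1) (1 + P.a)) :=
    (H.cont.sub continuous_ofReal).norm.continuousOn
  obtain ⟨x0, ⟨g1, g2⟩, hmax⟩ := isCompact_Icc.exists_isMaxOn ⟨x, h1, h2⟩ hc
  have hm : ∀ y, P.a - 1 ≤ y → y ≤ 1 + P.a → ‖h y - y‖ ≤ ‖h x0 - x0‖ := fun y y1 y2 =>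
    hmax (show y ∈ Set.Icc _ _ from ⟨y1, y2⟩)
  have n1 : ‖(P.r : ℂ) * P.v‖ = P.r := by
    rw [norm_mul, P.hv, norm_real, Real.norm_eq_abs, abs_of_pos P.hr0, mul_one]
  have n3 : ‖(P.r : ℂ) * P.v ^ 3‖ = P.r := by
    rw [norm_mul, norm_pow, P.hv, norm_real, Real.norm_eq_abs, abs_of_pos P.hr0, one_pow, mul_one]
  have key : ∃ y, P.a - 1 ≤ y ∧ y ≤ 1 + P.a ∧ ‖h x0 - x0‖ ≤ P.r * ‖h y - y‖ + 3 / 1000 := by
    rcases le_total x0 0 with c1 | c1
    · refine ⟨-x0 * (2 + P.a), by nlinarith, by nlinarith, ?_⟩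
      have e1 := H.b0 (-x0 * (2 + P.a)) (by nlinarith)
      have f1 : -P.a * (-x0 * (2 + P.a)) = x0 := by linear_combination x0 * hi
      have := close_aux (P := P) (P.r * P.v) 0 (h (-x0 * (2 + P.a))) 0 (-x0 * (2 + P.a)) n1 P.c1
        (by simp) (abs_le.2 ⟨by nlinarith, by nlinarith⟩)
      rw [f1] at e1
      have f2 : 0 - P.a * (-x0 * (2 + P.a)) = x0 := by linear_combination x0 * hi
      rw [f2, add_zero] at this
      rw [e1]
      exact this
    rcases le_total x0 (2 * P.a) with c2 | c2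
    · refine ⟨(1 - P.a - x0) * (2 + P.a), by nlinarith, by nlinarith, ?_⟩
      have e1 := H.b1 ((1 - P.a - x0) * (2 + P.a)) (by nlinarith) (by nlinarith)
      have f1 : 1 - P.a - P.a * ((1 - P.a - x0) * (2 + P.a)) = x0 := by
        linear_combination (x0 - (1 - P.a)) * hi
      have := close_aux (P := P) (P.r * P.v ^ 3) _ (h ((1 - P.a - x0) * (2 + P.a))) (1 - P.a)
        ((1 - P.a - x0) * (2 + P.a)) n3 P.c2
        (by push_cast; exact P.c3) (abs_le.2 ⟨by nlinarith, by nlinarith⟩)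
      rw [f1] at e1 this
      rw [e1]
      exact this
    · refine ⟨(1 + P.a - x0) * (2 + P.a), by nlinarith, by nlinarith, ?_⟩
      have e1 := H.b2 ((1 + P.a - x0) * (2 + P.a)) (by nlinarith)
      have f1 : 1 + P.a - P.a * ((1 + P.a - x0) * (2 + P.a)) = x0 := by
        linear_combination (x0 - (1 + P.a)) * hi
      have := close_aux (P := P) (P.r * P.v ^ 3) _ (h ((1 + P.a - x0) * (2 + P.a))) (1 + P.a)
        ((1 + P.a - x0) * (2 + P.a)) n3 P.c2
        (by push_cast; exact P.c4) (abs_le.2 ⟨by nlinarith, by nlinarith⟩)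
      rw [f1] at e1 this
      rw [e1]
      exact this
  obtain ⟨y, y1, y2, hy⟩ := key
  have k1 := hm y y1 y2
  have k2 := hm x h1 h2
  have k3 := P.hr1
  have k4 := P.hr0
  have k5 := norm_nonneg (h y - y)
  nlinarith

lemma close_re (x : ℝ) (h1 : P.a - 1 ≤ x) (h2 : x ≤ 1 + P.a) : |(h x).re - x| ≤ 1 / 100 := by
  have := (abs_re_le_norm (h x - x)).trans (close H x h1 h2)
  simpa using this

lemma far (x y : ℝ) (h1 : P.a - 1 ≤ x) (h2 : y ≤ 1 + P.a) (hxy : 1 / 50 < y - x) :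
    (h x).re < (h y).re := by
  have e1 := abs_le.1 (close_re H x h1 (by linarith))
  have e2 := abs_le.1 (close_re H y (by linarith) h2)
  linarith [e1.2, e2.1]

omit H in
/-- Two applications of an anti-similarity form a homothety. -/
lemma homothety (G : ℂ → ℂ) (c b : ℂ) (hc : c * conj c = 1) (hG : ∀ z, G z = -(P.r * c) * conj z + b)
    (p lo hi : ℝ) (hψ : ∀ t, lo ≤ t → t ≤ hi → lo ≤ -P.a * t ∧ -P.a * t ≤ hi ∧
      h (p + -P.a * t) = G (h (p + t))) (hlo : lo ≤ 0) (hhi : 0 ≤ hi)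
    (t : ℝ) (t1 : lo ≤ t) (t2 : t ≤ hi) :
    h (p + P.a ^ 2 * t) - h p = P.r ^ 2 * (h (p + t) - h p) := by
  obtain ⟨s1, s2, e1⟩ := hψ t t1 t2
  obtain ⟨-, -, e2⟩ := hψ _ s1 s2
  obtain ⟨-, -, e3⟩ := hψ 0 hlo hhi
  simp only [mul_zero, add_zero] at e3
  have f : -P.a * (-P.a * t) = P.a ^ 2 * t := by ring
  rw [f, e1] at e2
  have e4 : h p = G (G (h p)) := by rw [← e3, ← e3]
  rw [e2]
  conv_lhs => rw [e4]
  simp only [hG, map_add, map_mul, map_neg, conj_ofReal, conj_conj]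
  linear_combination (P.r : ℂ) ^ 2 * (h (p + t) - h p) * hc

omit H in
lemma hv3 : P.v ^ 3 * conj (P.v ^ 3) = 1 := by
  rw [map_pow, ← mul_pow, P.hvw, one_pow]

lemma hom0 (t : ℝ) (t1 : P.a - 1 ≤ t) (t2 : t ≤ 1 + P.a) :
    h (0 + P.a ^ 2 * t) - h 0 = P.r ^ 2 * (h (0 + t) - h 0) := by
  have ha := P.ha
  have ha1 := P.ha1
  have ha2 := P.ha2
  refine homothety P.G0 P.v 0 P.hvw (fun z => by simp [G0]) 0 (P.a - 1) (1 + P.a)
    (fun t t1 t2 => ⟨by nlinarith, by nlinarith, ?_⟩) (by linarith) (by linarith) t t1 t2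
  simpa using b0' H t t1

lemma hom1 (t : ℝ) (t1 : -1 ≤ t) (t2 : t ≤ 1) :
    h (P.a + P.a ^ 2 * t) - h P.a = P.r ^ 2 * (h (P.a + t) - h P.a) := by
  have ha := P.ha
  have ha1 := P.ha1
  have ha2 := P.ha2
  refine homothety P.G1 (P.v ^ 3) _ hv3 (fun z => rfl) P.a (-1) 1
    (fun t t1 t2 => ⟨by nlinarith, by nlinarith, ?_⟩) (by linarith) (by linarith) t t1 t2
  rw [← H.b1 _ (by linarith) (by linarith)]
  congr 1
  linear_combination ha

lemma hom3 (t : ℝ) (t1 : -1 ≤ t) (t2 : t ≤ P.a) :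
    h (1 + P.a ^ 2 * t) - h 1 = P.r ^ 2 * (h (1 + t) - h 1) := by
  have ha := P.ha
  have ha1 := P.ha1
  have ha2 := P.ha2
  refine homothety P.G2 (P.v ^ 3) _ hv3 (fun z => rfl) 1 (-1) P.a
    (fun t t1 t2 => ⟨by nlinarith, by nlinarith, ?_⟩) (by linarith) (by linarith) t t1 t2
  rw [← H.b2 _ (by linarith)]
  congr 1
  ring

lemma hom2 (t : ℝ) (t1 : -P.a ≤ t) (t2 : t ≤ 1 - P.a) :
    h (2 * P.a + P.a ^ 2 * t) - h (2 * P.a) = P.r ^ 2 * (h (2 * P.a + t) - h (2 * P.a)) := by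
  have ha := P.ha
  have ha1 := P.ha1
  have ha2 := P.ha2
  refine homothety (fun z => P.T1 (P.G1 z)) (P.v ^ 5) (P.T1 (P.G1 0))
    (by rw [map_pow, ← mul_pow, P.hvw, one_pow]) (fun z => by simp only [T1, G1, map_zero]; ring)
    (2 * P.a) (-P.a) (1 - P.a)
    (fun t t1 t2 => ⟨by nlinarith, by nlinarith, ?_⟩) (by linarith) (by linarith) t t1 t2
  have e1 := H.b1 (2 * P.a + t) (by linarith) (by linarith)
  have e2 := E1 H (1 - P.a - P.a * (2 * P.a + t)) (by nlinarith) (by nlinarith)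
  rw [← e1, ← e2]
  congr 1
  linear_combination 2 * ha

lemma hom4 (t : ℝ) (t1 : 0 ≤ t) (t2 : t ≤ 1) :
    h (P.a - 1 + P.a ^ 2 * t) - h (P.a - 1) = P.r ^ 2 * (h (P.a - 1 + t) - h (P.a - 1)) := by
  have ha := P.ha
  have ha1 := P.ha1
  have ha2 := P.ha2
  have e0 := hom0 H t (by linarith) (by linarith)
  have e1 := E1 H (P.a - 1 + P.a ^ 2 * t) (by nlinarith) (by nlinarith)
  have e2 := E1 H (P.a - 1 + t) (by linarith) (by linarith)
  have e3 := E1 H (P.a - 1) (by linarith) (by linarith)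
  have f1 : P.a - 1 + P.a ^ 2 * t + (1 - P.a) = 0 + P.a ^ 2 * t := by ring
  have f2 : P.a - 1 + t + (1 - P.a) = 0 + t := by ring
  have f3 : P.a - 1 + (1 - P.a) = 0 := by ring
  rw [f1] at e1
  rw [f2] at e2
  rw [f3] at e3
  rw [e1, e2, e3] at e0
  have h1 := P.hvw
  simp only [T1] at e0
  have hv0 : P.v ^ 2 ≠ 0 := by
    intro h0
    have := congrArg norm h0
    simp [P.hv] at this
  apply mul_left_cancel₀ hv0
  linear_combination e0

omit H in
lemma exists_pow_lt (t : ℝ) (ht : 0 < t) : ∃ n : ℕ, P.a ^ n < t :=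
  exists_pow_lt_of_lt_one ht (by linarith [P.ha2])

lemma sep_right (c m : ℝ) (hc : P.a - 1 ≤ c) (hm : 0.4 ≤ m)
    (hom : ∀ t, 0 ≤ t → t ≤ m → h (c + P.a ^ 2 * t) - h c = P.r ^ 2 * (h (c + t) - h c))
    (hcm : c + m ≤ 1 + P.a) (x : ℝ) (hx1 : c < x) (hx2 : x ≤ 1 + P.a) : (h c).re < (h x).re := by
  have ha := P.ha
  have ha1 := P.ha1
  have ha2 := P.ha2
  have hi := P.hinv
  have key : ∀ n : ℕ, ∀ t, P.a ^ n < t → c + t ≤ 1 + P.a → (h c).re < (h (c + t)).re := by
    intro n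
    induction n with
    | zero => intro t t1 t2; exact far H _ _ hc t2 (by simp at t1; linarith)
    | succ n ih =>
      intro t t1 t2
      by_cases ht : 1 / 50 < t
      · exact far H _ _ hc t2 (by linarith)
      have p1 : 0 < P.a ^ n := by positivity
      have t0 : 0 < t := lt_trans (by positivity) t1
      have q1 : t * (2 + P.a) ^ 2 ≤ m := by nlinarith
      have q2 : P.a ^ n < t * (2 + P.a) ^ 2 := by
        rw [pow_succ] at t1
        nlinarith
      have e1 := hom (t * (2 + P.a) ^ 2) (by positivity) q1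
      have f1 : P.a ^ 2 * (t * (2 + P.a) ^ 2) = t := by
        linear_combination t * (P.a * (2 + P.a) + 1) * hi
      rw [f1] at e1
      have e2 := ih _ q2 (by linarith)
      have e3 := congrArg re e1
      rw [← ofReal_pow, re_ofReal_mul, sub_re, sub_re] at e3
      have : 0 < P.r ^ 2 := by have := P.hr0; positivity
      nlinarith
  obtain ⟨n, hn⟩ := exists_pow_lt (P := P) (x - c) (by linarith)
  simpa using key n (x - c) hn (by linarith)

lemma sep_left (c m : ℝ) (hc : c ≤ 1 + P.a) (hm : 0.4 ≤ m)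
    (hom : ∀ t, -m ≤ t → t ≤ 0 → h (c + P.a ^ 2 * t) - h c = P.r ^ 2 * (h (c + t) - h c))
    (hcm : P.a - 1 ≤ c - m) (x : ℝ) (hx1 : x < c) (hx2 : P.a - 1 ≤ x) : (h x).re < (h c).re := by
  have ha := P.ha
  have ha1 := P.ha1
  have ha2 := P.ha2
  have hi := P.hinv
  have key : ∀ n : ℕ, ∀ t, P.a ^ n < t → P.a - 1 ≤ c + -t → (h (c + -t)).re < (h c).re := by
    intro n
    induction n with
    | zero => intro t t1 t2; exact far H _ _ t2 hc (by simp at t1; linarith)
    | succ n ih =>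
      intro t t1 t2
      by_cases ht : 1 / 50 < t
      · exact far H _ _ t2 hc (by linarith)
      have p1 : 0 < P.a ^ n := by positivity
      have t0 : 0 < t := lt_trans (by positivity) t1
      have q1 : t * (2 + P.a) ^ 2 ≤ m := by nlinarith
      have q2 : P.a ^ n < t * (2 + P.a) ^ 2 := by
        rw [pow_succ] at t1
        nlinarith
      have q3 : 0 < t * (2 + P.a) ^ 2 := by positivity
      have e1 := hom (-(t * (2 + P.a) ^ 2)) (by linarith) (by linarith)
      have f1 : P.a ^ 2 * (-(t * (2 + P.a) ^ 2)) = -t := by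
        linear_combination -t * (P.a * (2 + P.a) + 1) * hi
      rw [f1] at e1
      have e2 := ih _ q2 (by linarith)
      have e3 := congrArg re e1
      rw [← ofReal_pow, re_ofReal_mul, sub_re, sub_re] at e3
      have : 0 < P.r ^ 2 := by have := P.hr0; positivity
      nlinarith
  obtain ⟨n, hn⟩ := exists_pow_lt (P := P) (c - x) (by linarith)
  simpa using key n (c - x) hn (by linarith)

lemma sepA (x : ℝ) (h1 : P.a - 1 < x) (h2 : x ≤ 1 + P.a) : (h (P.a - 1)).re < (h x).re :=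
  sep_right H _ 1 le_rfl (by norm_num) (hom4 H) (by linarith) x h1 h2

lemma sepB1 (x : ℝ) (h1 : P.a < x) (h2 : x ≤ 1 + P.a) : (h P.a).re < (h x).re :=
  sep_right H _ 1 (by linarith) (by norm_num) (fun t t1 t2 => hom1 H t (by linarith) t2)
    (by linarith) x h1 h2

lemma sepB2 (x : ℝ) (h1 : x < P.a) (h2 : P.a - 1 ≤ x) : (h x).re < (h P.a).re :=
  sep_left H _ 1 (by linarith) (by norm_num) (fun t t1 t2 => hom1 H t t1 (by linarith))
    (by linarith) x h1 h2

lemma sepC1 (x : ℝ) (h1 : 2 * P.a < x) (h2 : x ≤ 1 + P.a) : (h (2 * P.a)).re < (h x).re :=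
  sep_right H _ (1 - P.a) (by linarith [P.ha1]) (by linarith [P.ha2])
    (fun t t1 t2 => hom2 H t (by linarith [P.ha1]) t2) (by linarith) x h1 h2

lemma sepC2 (x : ℝ) (h1 : x < 2 * P.a) (h2 : P.a - 1 ≤ x) : (h x).re < (h (2 * P.a)).re :=
  sep_left H _ P.a (by linarith [P.ha2]) (by linarith [P.ha1])
    (fun t t1 t2 => hom2 H t t1 (by linarith [P.ha2])) (by linarith) x h1 h2

lemma sepD (x : ℝ) (h1 : x < 1) (h2 : P.a - 1 ≤ x) : (h x).re < (h 1).re :=
  sep_left H _ 1 (by linarith [P.ha1]) (by norm_num)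
    (fun t t1 t2 => hom3 H t t1 (by linarith [P.ha1])) (by linarith [P.ha2]) x h1 h2

lemma inj (x y : ℝ) (h1 : P.a - 1 ≤ x) (hxy : x < y) (h2 : y ≤ 1 + P.a) : h x ≠ h y := by
  have ha := P.ha
  have ha1 := P.ha1
  have ha2 := P.ha2
  have hi := P.hinv
  have key : ∀ n : ℕ, ∀ x y, P.a - 1 ≤ x → y ≤ 1 + P.a → P.a ^ n < y - x → h x ≠ h y := by
    intro n
    induction n with
    | zero =>
      intro x y h1 h2 h3 h4
      have := far H x y h1 h2 (by simp at h3; linarith)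
      rw [h4] at this
      exact lt_irrefl _ this
    | succ n ih =>
      intro x y h1 h2 h3 h4
      by_cases ht : 1 / 50 < y - x
      · have := far H x y h1 h2 ht
        rw [h4] at this
        exact lt_irrefl _ this
      have p1 : 0 < P.a ^ n := by positivity
      have t0 : 0 < y - x := lt_trans (by positivity) h3
      have q2 : P.a ^ n < (y - x) * (2 + P.a) := by
        rw [pow_succ] at h3
        nlinarith
      have gen : ∀ (G : ℂ → ℂ) (b : ℝ), (∀ z z', ‖G z - G z'‖ = P.r * ‖z - z'‖) →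
          P.a - 1 ≤ (b - y) * (2 + P.a) → (b - x) * (2 + P.a) ≤ 1 + P.a →
          h (b - P.a * ((b - x) * (2 + P.a))) = G (h ((b - x) * (2 + P.a))) →
          h (b - P.a * ((b - y) * (2 + P.a))) = G (h ((b - y) * (2 + P.a))) → False := by
        intro G b hG g1 g2 e1 e2
        have f1 : b - P.a * ((b - x) * (2 + P.a)) = x := by linear_combination (x - b) * hi
        have f2 : b - P.a * ((b - y) * (2 + P.a)) = y := by linear_combination (y - b) * hi
        rw [f1] at e1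
        rw [f2] at e2
        have e3 := hG (h ((b - y) * (2 + P.a))) (h ((b - x) * (2 + P.a)))
        rw [← e1, ← e2, h4, sub_self, norm_zero] at e3
        have e4 := (mul_eq_zero.1 e3.symm).resolve_left P.hr0.ne'
        exact ih _ _ g1 g2 (by linarith) (sub_eq_zero.1 (norm_eq_zero.1 e4))
      rcases le_total y (3 * P.a - 1) with c1 | c1
      · refine gen P.G0 0 P.norm_G0 (by nlinarith) (by nlinarith) ?_ ?_
        · rw [← b0' H _ (by nlinarith)]; congr 1; ring
        · rw [← b0' H _ (by nlinarith)]; congr 1; ring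
      rcases le_total y (2 * P.a) with c2 | c2
      · exact gen P.G1 (1 - P.a) P.norm_G1 (by nlinarith) (by nlinarith)
          (H.b1 _ (by nlinarith) (by nlinarith)) (H.b1 _ (by nlinarith) (by nlinarith))
      rcases le_or_gt (2 * P.a) x with c3 | c3
      · exact gen P.G2 (1 + P.a) P.norm_G2 (by nlinarith) (by nlinarith)
          (H.b2 _ (by nlinarith)) (H.b2 _ (by nlinarith))
      · have s1 := sepC2 H x c3 h1
        rcases c2.eq_or_lt with c4 | c4
        · rw [c4, h4] at s1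
          exact lt_irrefl _ s1
        · have s2 := sepC1 H y c4 h2
          rw [h4] at s1
          exact lt_asymm s1 s2
  obtain ⟨n, hn⟩ := exists_pow_lt (P := P) (y - x) (by linarith)
  exact key n x y h1 h2 hn

end Par

end Pool.Agent.MP_b9fb92_an.H82
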