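import Pool.Agent.MP_b9fb92_an.H82.Dyn

/-! Minimality of the rotation and non-triviality of the curve. -/

open Complex ComplexConjugate Filter Topology

namespace Pool.Agent.MP_b9fb92_an.H82

/-- The values of `h` on `(p, q)` lie on a line or a circle. -/
def GC (h : ℝ → ℂ) (p q : ℝ) : Prop :=
  ∃ (A C : ℝ) (B : ℂ), (A ≠ 0 ∨ B ≠ 0) ∧
    ∀ x, p < x → x < q → A * normSq (h x) + (conj B * h x).re + C = 0

lemma GC.mono {h : ℝ → ℂ} {p q p' q' : ℝ} (H : GC h p q) (hp : p ≤ p') (hq : q' ≤ q) :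
    GC h p' q' := by
  obtain ⟨A, C, B, h1, h2⟩ := H
  exact ⟨A, C, B, h1, fun x x1 x2 => h2 x (by linarith) (by linarith)⟩

lemma GC.move {h g : ℝ → ℂ} {p q τ : ℝ} (H : GC h p q) (u l : ℂ) (hu : ‖u‖ = 1)
    (hg : ∀ x, p < x → x < q → g (x + τ) = u * h x + l) : GC g (p + τ) (q + τ) := by
  obtain ⟨A, C, B, h1, h2⟩ := H
  have hu' : u.re * u.re + u.im * u.im = 1 := by
    rw [← normSq_apply, normSq_eq_norm_sq, hu]; norm_num
  refine ⟨A, A * normSq l - (conj (B * u) * l).re + C, B * u - 2 * A * l, ?_, fun x x1 x2 => ?_⟩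
  · by_cases hA : A = 0
    · right
      have hB := h1.resolve_left (not_not.2 hA)
      have hu0 : u ≠ 0 := by rintro rfl; simp at hu
      simp [hA, hB, hu0]
    · exact Or.inl hA
  · have e1 := hg (x - τ) (by linarith) (by linarith)
    have e2 := h2 (x - τ) (by linarith) (by linarith)
    rw [sub_add_cancel] at e1
    rw [e1]
    generalize h (x - τ) = z at e2
    simp only [normSq_apply, mul_re, mul_im, add_re, add_im, sub_re, sub_im, conj_re, conj_im,
      ofReal_re, ofReal_im, re_ofNat, im_ofNat] at e2 ⊢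
    linear_combination e2 + (A * (z.re * z.re + z.im * z.im) + B.re * z.re + B.im * z.im) * hu'

lemma GC.of_collinear {h : ℝ → ℂ} {p q : ℝ} (H : Collinear ℝ (h '' Set.Ioo p q)) : GC h p q := by
  obtain ⟨z, v, hz⟩ := (collinear_iff_exists_forall_eq_smul_vadd _).1 H
  by_cases hv : v = 0
  · refine ⟨0, -z.re, 1, Or.inr one_ne_zero, fun x x1 x2 => ?_⟩
    obtain ⟨t, ht⟩ := hz (h x) ⟨x, ⟨x1, x2⟩, rfl⟩
    simp [ht, hv]
  · refine ⟨0, -(conj (I * v) * z).re, I * v, Or.inr (mul_ne_zero I_ne_zero hv), fun x x1 x2 => ?_⟩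
    obtain ⟨t, ht⟩ := hz (h x) ⟨x, ⟨x1, x2⟩, rfl⟩
    rw [ht]
    simp
    ring

lemma GC.of_cospherical {h : ℝ → ℂ} {p q : ℝ}
    (H : EuclideanGeometry.Cospherical (h '' Set.Ioo p q)) : GC h p q := by
  obtain ⟨z, ρ, hz⟩ := H
  refine ⟨1, normSq z - ρ ^ 2, -2 * z, Or.inl one_ne_zero, fun x x1 x2 => ?_⟩
  have e := hz (h x) ⟨x, ⟨x1, x2⟩, rfl⟩
  rw [dist_eq_norm] at e
  rw [← e, ← normSq_eq_norm_sq]
  simp [normSq_apply]
  ring

namespace Par

variable (P : Par)

/-- The rotation. -/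
noncomputable def rot (x : ℝ) : ℝ := if x < 2 * P.a then x + (1 - P.a) else x - (1 + P.a)

lemma rot_mem (x : ℝ) (h1 : P.a - 1 ≤ x) (h2 : x < 1 + P.a) :
    P.a - 1 ≤ P.rot x ∧ P.rot x < 1 + P.a := by
  have := P.ha1
  have := P.ha2
  unfold rot
  split_ifs <;> constructor <;> linarith

lemma rot_iter (x : ℝ) (h1 : P.a - 1 ≤ x) (h2 : x < 1 + P.a) (n : ℕ) :
    P.a - 1 ≤ P.rot^[n] x ∧ P.rot^[n] x < 1 + P.a ∧
      ∃ k : ℤ, P.rot^[n] x = x + n * (1 - P.a) + k * 2 := by
  induction n with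
  | zero => exact ⟨h1, h2, 0, by simp⟩
  | succ n ih =>
    obtain ⟨i1, i2, k, hk⟩ := ih
    rw [Function.iterate_succ_apply']
    refine ⟨(P.rot_mem _ i1 i2).1, (P.rot_mem _ i1 i2).2, ?_⟩
    unfold rot at *
    split_ifs
    · exact ⟨k, by rw [hk]; push_cast; ring⟩
    · exact ⟨k - 1, by rw [hk]; push_cast; ring⟩

lemma irr : Irrational ((1 - P.a) / 2) := by
  have ha := P.ha
  have ha1 := P.ha1
  have h1 : √2 = P.a + 1 := by
    rw [Real.sqrt_eq_iff_mul_self_eq (by norm_num) (by linarith)]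
    linarith
  have h2 : (1 - P.a) / 2 = (((2 : ℕ) : ℝ) - √2) / ((2 : ℕ) : ℝ) := by rw [h1]; push_cast; ring
  rw [h2]
  exact (irrational_sqrt_two.natCast_sub 2).div_natCast (by norm_num)

lemma rot_dense (x : ℝ) (h1 : P.a - 1 ≤ x) (h2 : x < 1 + P.a) (p q : ℝ) (hpq : p < q)
    (hp : P.a - 1 ≤ p) (hq : q ≤ 1 + P.a) : ∃ n : ℕ, p < P.rot^[n] x ∧ P.rot^[n] x < q := by
  have : Fact ((0 : ℝ) < 2) := ⟨by norm_num⟩
  have d1 := (AddCircle.denseRange_zsmul_coe_iff (a := 1 - P.a) (p := 2)).2 P.irr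
  have d2 := denseRange_zsmul_iff_nsmul.1 d1
  have hU : IsOpen (((↑) : ℝ → AddCircle (2 : ℝ)) '' Set.Ioo (p - x) (q - x)) :=
    QuotientAddGroup.isOpenMap_coe _ isOpen_Ioo
  obtain ⟨n, t, ⟨t1, t2⟩, ht⟩ := d2.exists_mem_open hU
    (Set.Nonempty.image _ (Set.nonempty_Ioo.2 (by linarith)))
  obtain ⟨i1, i2, k, hk⟩ := P.rot_iter x h1 h2 n
  have ht' : ((t : ℝ) : AddCircle (2 : ℝ)) = ((n * (1 - P.a) : ℝ) : AddCircle (2 : ℝ)) := by
    rw [ht, ← nsmul_eq_mul, AddCircle.coe_nsmul]
  rw [QuotientAddGroup.eq] at ht'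
  obtain ⟨j, hj⟩ := AddSubgroup.mem_zmultiples_iff.1 ht'
  rw [zsmul_eq_mul] at hj
  have e1 : P.rot^[n] x = x + t + ((j + k : ℤ) : ℝ) * 2 := by rw [hk]; push_cast; linarith
  have e2 : ((j + k : ℤ) : ℝ) < 1 := by linarith
  have e3 : (-1 : ℝ) < ((j + k : ℤ) : ℝ) := by linarith
  have e4 : j + k < 1 := by exact_mod_cast e2
  have e5 : -1 < j + k := by exact_mod_cast e3
  have e6 : j + k = 0 := by omega
  rw [e6] at e1
  exact ⟨n, by rw [e1]; push_cast; linarith, by rw [e1]; push_cast; linarith⟩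

variable {P} {h : ℝ → ℂ} (H : P.IsCurve h)
include H

lemma val2 : h (2 * P.a) = P.G2 P.A3 := by
  rw [← H.v3, ← H.b2 _ le_rfl]
  congr 1
  linear_combination P.ha

lemma val1 : h 1 = P.v ^ 2 := by
  have e := H.b2 1 (by linarith [P.ha1])
  have f : 1 + P.a - P.a * 1 = 1 := by ring
  rw [f] at e
  have e2 : P.G2 (P.v ^ 2) = P.v ^ 2 := by
    have h1 := P.hvw
    simp only [G2, map_pow]
    grind
  have e3 := P.norm_G2 (h 1) (P.v ^ 2)
  rw [← e, e2] at e3
  have := P.hr1
  have h0 := norm_nonneg (h 1 - P.v ^ 2)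
  have : ‖h 1 - P.v ^ 2‖ = 0 := by nlinarith
  exact sub_eq_zero.1 (norm_eq_zero.1 this)

lemma not_GC_special (c lo hi η : ℝ) (hη : 0 < η) (hlo : lo ≤ 0) (hhi : 0 < hi)
    (hc : P.a - 1 ≤ c) (hc' : c + hi ≤ 1 + P.a)
    (hom : ∀ t, lo ≤ t → t ≤ hi → h (c + P.a ^ 2 * t) - h c = P.r ^ 2 * (h (c + t) - h c))
    (l1 : c + lo ≤ 2 * P.a) (l2 : 1 + P.a ≤ c + hi) : ¬ GC h (c - η) (c + η) := by
  rintro ⟨A, C, B, h1, h2⟩
  have ha := P.ha
  have ha1 := P.ha1
  have ha2 := P.ha2
  have hr0 := P.hr0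
  have hr1 := P.hr1
  have ha3 : P.a ^ 2 < 1 := by nlinarith
  have ha4 : 0 < P.a ^ 2 := by positivity
  -- centred equation
  set B' := B + 2 * A * h c with hB'
  have e0 := h2 c (by linarith) (by linarith)
  have cen : ∀ t, -η < t → t < η →
      A * normSq (h (c + t) - h c) + (conj B' * (h (c + t) - h c)).re = 0 := by
    intro t t1 t2
    have e := h2 (c + t) (by linarith) (by linarith)
    rw [hB']
    generalize h (c + t) = z at e
    generalize h c = w at e0
    simp only [normSq_apply, mul_re, mul_im, add_re, add_im, sub_re, sub_im, conj_re, conj_im,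
      ofReal_re, ofReal_im, re_ofNat, im_ofNat] at e e0 ⊢
    linear_combination e - e0
  have scal : ∀ (s : ℝ) (w : ℂ), (conj B' * ((s : ℂ) ^ 2 * w)).re = s ^ 2 * (conj B' * w).re := by
    intro s w
    rw [mul_left_comm, ← ofReal_pow, re_ofReal_mul]
  have hA : A = 0 := by
    set t := min (η / 2) hi with ht
    have t0 : 0 < t := lt_min (by linarith) hhi
    have t1 : t ≤ η / 2 := min_le_left _ _
    have t2 : t ≤ hi := min_le_right _ _
    have e1 := cen t (by linarith) (by linarith)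
    have e2 := cen (P.a ^ 2 * t) (by nlinarith) (by nlinarith)
    rw [hom t (by linarith) t2, scal, map_mul, ← ofReal_pow, normSq_ofReal] at e2
    have n0 : 0 < normSq (h (c + t) - h c) := normSq_pos.2 (sub_ne_zero.2
      (inj H c (c + t) hc (by linarith) (by linarith)).symm)
    have e3 : A * (normSq (h (c + t) - h c) * (P.r ^ 2 * (1 - P.r ^ 2))) = 0 := by
      linear_combination P.r ^ 2 * e1 - e2
    have p1 : 0 < 1 - P.r ^ 2 := by nlinarith
    exact (mul_eq_zero.1 e3).resolve_right (by positivity)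
  have hB : B' ≠ 0 := by
    rw [hB', hA]
    simpa using h1.resolve_left (not_not.2 hA)
  have lin : ∀ n : ℕ, ∀ t, lo ≤ t → t ≤ hi → |t| * P.a ^ n < η →
      (conj B' * (h (c + t) - h c)).re = 0 := by
    intro n
    induction n with
    | zero =>
      intro t t1 t2 t3
      rw [pow_zero, mul_one, abs_lt] at t3
      simpa [hA] using cen t t3.1 t3.2
    | succ n ih =>
      intro t t1 t2 t3
      have := ih (P.a ^ 2 * t) (by nlinarith) (by nlinarith) (by
        rw [abs_mul, abs_of_pos ha4]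
        have p1 : 0 ≤ |t| * P.a ^ (n + 1) := by positivity
        have : P.a ^ 2 * |t| * P.a ^ n = P.a * (|t| * P.a ^ (n + 1)) := by ring
        nlinarith)
      rw [hom t t1 t2, scal] at this
      exact (mul_eq_zero.1 this).resolve_left (by positivity)
  have lin' : ∀ x, 2 * P.a ≤ x → x ≤ 1 + P.a → (conj B' * (h x - h c)).re = 0 := by
    intro x x1 x2
    obtain ⟨n, hn⟩ := exists_pow_lt (P := P) (η / 2) (by linarith)
    have p1 : 0 < P.a ^ n := by positivity
    have : |x - c| ≤ 2 := abs_le.2 ⟨by linarith, by linarith⟩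
    simpa using lin n (x - c) (by linarith) (by linarith) (by nlinarith)
  have k1 := lin' (2 * P.a) le_rfl (by linarith)
  have k2 := lin' 1 (by linarith) (by linarith)
  have k3 := lin' (1 + P.a) (by linarith) le_rfl
  have hvw := P.hvw
  have hr := P.hr
  have d1 : h (1 + P.a) - h c = (h 1 - h c) + P.r * P.v := by rw [H.v3, val1 H, A3]; ring
  have d2 : h 1 - h c = (h (2 * P.a) - h c) + P.r ^ 2 * P.v ^ 2 := by
    rw [val2 H, val1 H]
    simp only [G2, A3, map_add, map_mul, map_pow, conj_ofReal]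
    grind
  rw [d1, mul_add, add_re, k2, zero_add, mul_left_comm, re_ofReal_mul] at k3
  rw [d2, mul_add, add_re, k1, zero_add, scal] at k2
  have k4 := (mul_eq_zero.1 k3).resolve_left hr0.ne'
  have k5 := (mul_eq_zero.1 k2).resolve_left (by positivity)
  have k6 : (conj B' * P.v).im * P.v.im = 0 := by
    rw [pow_two, ← mul_assoc, mul_re, k4] at k5
    linarith
  have k7 := (mul_eq_zero.1 k6).resolve_right P.him
  have k8 : conj B' * P.v = 0 := Complex.ext k4 k7
  have hv0 : P.v ≠ 0 := by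
    intro h0
    have := P.hv
    simp [h0] at this
  exact hB (by simpa [hv0] using k8)

lemma not_GC (p q : ℝ) (hpq : p < q) (hp : P.a - 1 ≤ p) (hq : q ≤ 1 + P.a) : ¬ GC h p q := by
  intro G
  have ha1 := P.ha1
  have ha2 := P.ha2
  set η := (q - p) / 2 with hη
  set x := (p + q) / 2 with hx
  have η0 : 0 < η := by linarith
  have n1 : ∀ y, y - η < P.a → P.a < y + η → ¬ GC h (y - η) (y + η) := by
    intro y y1 y2 G
    refine not_GC_special H P.a (-1) 1 (min (P.a - (y - η)) (y + η - P.a))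
      (lt_min (by linarith) (by linarith)) (by norm_num) (by norm_num) (by linarith) (by linarith)
      (hom1 H) (by linarith) (by linarith) (G.mono ?_ ?_)
    · linarith [min_le_left (P.a - (y - η)) (y + η - P.a)]
    · linarith [min_le_right (P.a - (y - η)) (y + η - P.a)]
  have n2 : ∀ y, y - η < 2 * P.a → 2 * P.a < y + η → ¬ GC h (y - η) (y + η) := by
    intro y y1 y2 G
    refine not_GC_special H (2 * P.a) (-P.a) (1 - P.a)
      (min (2 * P.a - (y - η)) (y + η - 2 * P.a))
      (lt_min (by linarith) (by linarith)) (by linarith) (by linarith) (by linarith) (by linarith)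
      (hom2 H) (by linarith) (by linarith) (G.mono ?_ ?_)
    · linarith [min_le_left (2 * P.a - (y - η)) (y + η - 2 * P.a)]
    · linarith [min_le_right (2 * P.a - (y - η)) (y + η - 2 * P.a)]
  have nv : ‖P.v ^ 2‖ = 1 := by rw [norm_pow, P.hv, one_pow]
  have nw : ‖conj P.v ^ 2‖ = 1 := by rw [norm_pow, norm_conj, P.hv, one_pow]
  have key : ∀ n : ℕ, P.a - 1 ≤ P.rot^[n] x - η ∧ P.rot^[n] x + η ≤ 1 + P.a ∧
      GC h (P.rot^[n] x - η) (P.rot^[n] x + η) := by
    intro n
    induction n with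
    | zero =>
      refine ⟨by simp only [Function.iterate_zero, id]; linarith,
        by simp only [Function.iterate_zero, id]; linarith, G.mono ?_ ?_⟩ <;>
        simp only [Function.iterate_zero, id] <;> linarith
    | succ n ih =>
      obtain ⟨i1, i2, i3⟩ := ih
      rw [Function.iterate_succ_apply']
      generalize P.rot^[n] x = y at *
      by_cases c1 : y + η ≤ P.a
      · rw [rot, if_pos (by linarith)]
        refine ⟨by linarith, by linarith, ?_⟩
        have := i3.move (τ := 1 - P.a) _ _ nv (fun z z1 z2 => E1 H z (by linarith) (by linarith))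
        exact this.mono (by linarith) (by linarith)
      have c2 : P.a ≤ y - η := not_lt.1 fun c => n1 y c (not_le.1 c1) i3
      by_cases c3 : y + η ≤ 2 * P.a
      · rw [rot, if_pos (by linarith)]
        refine ⟨by linarith, by linarith, ?_⟩
        have := i3.move (τ := 1 - P.a) _ _ nw (fun z z1 z2 => E2 H z (by linarith) (by linarith))
        exact this.mono (by linarith) (by linarith)
      have c4 : 2 * P.a ≤ y - η := not_lt.1 fun c => n2 y c (not_le.1 c3) i3
      rw [rot, if_neg (by linarith)]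
      refine ⟨by linarith, by linarith, ?_⟩
      have := i3.move (g := h) (τ := -(1 + P.a)) _ _ nw (fun z z1 z2 => by
        rw [← sub_eq_add_neg]; exact E3 H z (by linarith) (by linarith))
      exact this.mono (by linarith) (by linarith)
  obtain ⟨n, m1, m2⟩ := P.rot_dense x (by linarith) (by linarith) P.a (P.a + min η 1)
    (by linarith [lt_min η0 one_pos]) (by linarith) (by linarith [min_le_right η 1])
  exact n1 _ (by linarith [min_le_left η 1]) (by linarith) (key n).2.2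

end Par

end Pool.Agent.MP_b9fb92_an.H82
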