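import Pool.Agent.MP_b9fb92_an.H82.Defs
import Pool.Agent.MP_b9fb92_an.H82.NonTriv

/-! General facts on interval exchanges and the tower construction. -/

open Complex ComplexConjugate Filter Topology Finset

namespace Pool.Agent.MP_b9fb92_an.H82

variable {d : ℕ} {μ : Fin d → ℝ} {π : Equiv.Perm (Fin d)}

lemma left_nonneg (hμ : ∀ j, 0 < μ j) (j : Fin d) : 0 ≤ left μ j :=
  sum_nonneg fun k _ => (hμ k).le

lemma left_add (j : Fin d) : left μ j + μ j = ∑ k ∈ univ.filter (fun k => k ≤ j), μ k := by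
  have : univ.filter (fun k => k ≤ j) = insert j (univ.filter (fun k => k < j)) := by
    ext k; simp [le_iff_lt_or_eq, or_comm]
  rw [this, sum_insert (by simp), left, add_comm]

lemma left_add_le (hμ : ∀ j, 0 < μ j) {i j : Fin d} (hij : i < j) : left μ i + μ i ≤ left μ j := by
  rw [left_add, left]
  refine sum_le_sum_of_subset_of_nonneg (fun k hk => ?_) fun k _ _ => (hμ k).le
  simp only [mem_filter, mem_univ, true_and] at hk ⊢
  exact lt_of_le_of_lt hk hij

lemma left_add_le_total (hμ : ∀ j, 0 < μ j) (i : Fin d) : left μ i + μ i ≤ ∑ k, μ k := by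
  rw [left_add]
  exact sum_le_sum_of_subset_of_nonneg (filter_subset _ _) fun k _ _ => (hμ k).le

lemma left_succ {i j : Fin d} (hij : j.val = i.val + 1) : left μ j = left μ i + μ i := by
  rw [left_add, left]
  congr 1
  ext k
  simp only [mem_filter, mem_univ, true_and, Fin.lt_def, Fin.le_def]
  omega

lemma left_last {i : Fin d} (hi : i.val + 1 = d) : left μ i + μ i = ∑ k, μ k := by
  rw [left_add]
  congr 1
  ext k
  have := k.2
  simp only [mem_filter, mem_univ, true_and, Fin.le_def, iff_true]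
  omega

lemma left_zero {i : Fin d} (hi : i.val = 0) : left μ i = 0 := by
  rw [left]
  refine sum_eq_zero fun k hk => ?_
  simp only [mem_filter, mem_univ, true_and, Fin.lt_def] at hk
  omega

lemma atom_subset (hμ : ∀ j, 0 < μ j) (j : Fin d) : atom μ j ⊆ dom μ := fun _ hx =>
  ⟨(left_nonneg hμ j).trans hx.1, hx.2.trans_le (left_add_le_total hμ j)⟩

lemma exists_atom {x : ℝ} (hx : x ∈ dom μ) : ∃ j, x ∈ atom μ j := by
  classical
  have hd : 0 < d := by
    rcases Nat.eq_zero_or_pos d with h | h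
    · subst h
      have := hx.1.trans_lt hx.2
      simp at this
    · exact h
  obtain ⟨j, hj, hmax⟩ := (univ.filter fun j : Fin d => left μ j ≤ x).exists_max_image id
    ⟨⟨0, hd⟩, by simp only [mem_filter, mem_univ, true_and]; rw [left_zero rfl]; exact hx.1⟩
  simp only [mem_filter, mem_univ, true_and, id] at hj hmax
  refine ⟨j, hj, ?_⟩
  by_cases hl : j.val + 1 = d
  · rw [left_last hl]; exact hx.2
  · have hlt : j.val + 1 < d := by have := j.2; omega
    rw [← left_succ (j := ⟨j.val + 1, hlt⟩) rfl]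
    by_contra hc
    have := hmax _ (not_lt.1 hc)
    simp [Fin.le_def] at this

lemma atom_unique (hμ : ∀ j, 0 < μ j) {x : ℝ} {i j : Fin d} (hi : x ∈ atom μ i)
    (hj : x ∈ atom μ j) : i = j := by
  rcases lt_trichotomy i j with h | h | h
  · have := left_add_le hμ h
    linarith [hi.2, hj.1]
  · exact h
  · have := left_add_le hμ h
    linarith [hi.1, hj.2]

lemma iet_eq (hμ : ∀ j, 0 < μ j) {x : ℝ} {j : Fin d} (hj : x ∈ atom μ j) :
    iet π μ x = x + tau π μ j := by
  rw [iet, sum_eq_single j, Set.indicator_of_mem hj]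
  · intro i _ hij
    exact Set.indicator_of_notMem (fun hi => hij (atom_unique hμ hi hj)) _
  · simp

lemma left_add_tau (j : Fin d) : left μ j + tau π μ j = left (μ ∘ π.symm) (π j) := by
  rw [tau, add_sub_cancel, left, sum_filter, sum_filter,
    ← Equiv.sum_comp π (fun a => if a < π j then (μ ∘ π.symm) a else 0)]
  simp

lemma total_perm : ∑ k, (μ ∘ π.symm) k = ∑ k, μ k := Equiv.sum_comp π.symm μ

lemma add_tau_mem (hμ : ∀ j, 0 < μ j) {x : ℝ} {j : Fin d} (hj : x ∈ atom μ j) :
    x + tau π μ j ∈ dom μ := by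
  have h1 : x + tau π μ j ∈ atom (μ ∘ π.symm) (π j) := by
    rw [atom, ← left_add_tau]
    simp only [Function.comp, Equiv.symm_apply_apply]
    exact ⟨by linarith [hj.1], by linarith [hj.2]⟩
  have := atom_subset (μ := μ ∘ π.symm) (fun k => hμ _) _ h1
  rwa [dom, total_perm] at this

lemma iet_mem (hμ : ∀ j, 0 < μ j) {x : ℝ} (hx : x ∈ dom μ) : iet π μ x ∈ dom μ := by
  obtain ⟨j, hj⟩ := exists_atom hx
  rw [iet_eq hμ hj]
  exact add_tau_mem hμ hj

lemma iet_iter_mem (hμ : ∀ j, 0 < μ j) {x : ℝ} (hx : x ∈ dom μ) (n : ℕ) :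
    (iet π μ)^[n] x ∈ dom μ := by
  induction n with
  | zero => exact hx
  | succ n ih => rw [Function.iterate_succ_apply']; exact iet_mem hμ ih

lemma iet_surj (hμ : ∀ j, 0 < μ j) {y : ℝ} (hy : y ∈ dom μ) : ∃ x ∈ dom μ, iet π μ x = y := by
  have h1 : y ∈ dom (μ ∘ π.symm) := by rwa [dom, total_perm]
  obtain ⟨j, hj⟩ := exists_atom h1
  obtain ⟨i, rfl⟩ := π.surjective j
  rw [atom, ← left_add_tau] at hj
  simp only [Function.comp, Equiv.symm_apply_apply] at hj
  have h2 : y - tau π μ i ∈ atom μ i := ⟨by linarith [hj.1], by linarith [hj.2]⟩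
  exact ⟨_, atom_subset hμ i h2, by rw [iet_eq hμ h2]; ring⟩

/-- The vertical line through `h c` separates the curve at `c`. -/
def Sep (h : ℝ → ℂ) (L c : ℝ) : Prop :=
  (∀ x, 0 ≤ x → x < c → (h x).re < (h c).re) ∧ ∀ x, c < x → x ≤ L → (h c).re < (h x).re

/-- The inductive invariant. -/
structure Good {d : ℕ} (π : Equiv.Perm (Fin d)) (μ : Fin d → ℝ) (h : ℝ → ℂ) : Prop where
  irr : ∀ k, 0 < k → k < d → ∃ j : Fin d, j.val < k ∧ k ≤ (π j).val
  gen : ∀ i j : Fin d, j.val = i.val + 1 → (π j).val ≠ (π i).val + 1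
  pos : ∀ j, 0 < μ j
  minimal : ∀ x ∈ dom μ, ∀ p q, p < q → 0 ≤ p → q ≤ ∑ k, μ k →
    ∃ n : ℕ, p < (iet π μ)^[n] x ∧ (iet π μ)^[n] x < q
  cont : Continuous h
  inj : ∀ x y, 0 ≤ x → x < y → y ≤ ∑ k, μ k → h x ≠ h y
  iso : ∀ j, ∃ u l : ℂ, ‖u‖ = 1 ∧ ∀ x ∈ atom μ j, h (x + tau π μ j) = u * h x + l
  sepL : ∀ j, Sep h (∑ k, μ k) (left μ j)
  sepT : Sep h (∑ k, μ k) (∑ k, μ k)
  nt : ∀ p q, p < q → 0 ≤ p → q ≤ ∑ k, μ k → ¬ GC h p q

lemma Good.sepR {h : ℝ → ℂ} (G : Good π μ h) (j : Fin d) :
    Sep h (∑ k, μ k) (left μ j + μ j) := by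
  by_cases hl : j.val + 1 = d
  · rw [left_last hl]; exact G.sepT
  · have hlt : j.val + 1 < d := by have := j.2; omega
    rw [← left_succ (j := ⟨j.val + 1, hlt⟩) rfl]
    exact G.sepL _

lemma exists_index (hd : 3 ≤ d) (π : Equiv.Perm (Fin d)) : ∃ j : Fin d,
    (∀ i : Fin d, i.val + 1 = d → (π j).val ≠ (π i).val + 1) ∧
    (∀ i : Fin d, j.val = i.val + 1 → (π i).val + 1 ≠ d) := by
  by_contra hc
  push Not at hc
  have u1 : ∀ j j' : Fin d, (∃ i : Fin d, i.val + 1 = d ∧ (π j).val = (π i).val + 1) →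
      (∃ i : Fin d, i.val + 1 = d ∧ (π j').val = (π i).val + 1) → j.val = j'.val := by
    rintro j j' ⟨i, h1, h2⟩ ⟨i', h3, h4⟩
    have : i = i' := Fin.ext (by omega)
    subst this
    have : π j = π j' := Fin.ext (by omega)
    rw [π.injective this]
  have u2 : ∀ j j' : Fin d, (∃ i : Fin d, j.val = i.val + 1 ∧ (π i).val + 1 = d) →
      (∃ i : Fin d, j'.val = i.val + 1 ∧ (π i).val + 1 = d) → j.val = j'.val := by
    rintro j j' ⟨i, h1, h2⟩ ⟨i', h3, h4⟩
    have : π i = π i' := Fin.ext (by omega)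
    have := π.injective this
    subst this
    omega
  have c : ∀ j : Fin d, (∃ i : Fin d, i.val + 1 = d ∧ (π j).val = (π i).val + 1) ∨
      (∃ i : Fin d, j.val = i.val + 1 ∧ (π i).val + 1 = d) := by
    intro j
    by_cases h : ∃ i : Fin d, i.val + 1 = d ∧ (π j).val = (π i).val + 1
    · exact Or.inl h
    · push Not at h
      exact Or.inr (hc j h)
  rcases c ⟨0, by omega⟩ with h0 | h0 <;> rcases c ⟨1, by omega⟩ with h1 | h1 <;>
    rcases c ⟨2, by omega⟩ with h2 | h2
  all_goals first
    | (have := u1 _ _ h0 h1; simp at this)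
    | (have := u1 _ _ h0 h2; simp at this)
    | (have := u1 _ _ h1 h2; simp at this)
    | (have := u2 _ _ h0 h1; simp at this)
    | (have := u2 _ _ h0 h2; simp at this)
    | (have := u2 _ _ h1 h2; simp at this)

lemma exists_perm (π : Equiv.Perm (Fin d)) (j : Fin d) : ∃ σ : Equiv.Perm (Fin (d + 1)),
    σ (Fin.last d) = (π j).castSucc ∧ σ j.castSucc = Fin.last d ∧
      ∀ i, i ≠ j → σ i.castSucc = (π i).castSucc := by
  let e : Equiv.Perm (Fin (d + 1)) :=
    (finSuccEquivLast.trans (Equiv.optionCongr π)).trans finSuccEquivLast.symm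
  have e1 : ∀ i, e i.castSucc = (π i).castSucc := fun i => by simp [e]
  have e2 : e (Fin.last d) = Fin.last d := by simp [e]
  refine ⟨(Equiv.swap j.castSucc (Fin.last d)).trans e, by simp [e1], by simp [e2], fun i hi => ?_⟩
  rw [Equiv.trans_apply, Equiv.swap_apply_of_ne_of_ne (by simpa using hi) (Fin.castSucc_ne_last i),
    e1]

section step

variable (j : Fin d) (σ : Equiv.Perm (Fin (d + 1)))

/-- new lengths -/
def mu' (μ : Fin d → ℝ) (j : Fin d) : Fin (d + 1) → ℝ := Fin.snoc (α := fun _ => ℝ) μ (μ j)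

@[simp] lemma mu'_cast (i : Fin d) : mu' μ j i.castSucc = μ i := by simp [mu']
@[simp] lemma mu'_last : mu' μ j (Fin.last d) = μ j := by simp [mu']

lemma total' : ∑ k, mu' μ j k = ∑ k, μ k + μ j := by
  rw [Fin.sum_univ_castSucc]; simp

lemma left'_cast (i : Fin d) : left (mu' μ j) i.castSucc = left μ i := by
  rw [left, left, sum_filter, sum_filter, Fin.sum_univ_castSucc]
  simp [(Fin.castSucc_lt_last i).not_gt]

lemma left'_last : left (mu' μ j) (Fin.last d) = ∑ k, μ k := by
  rw [left, sum_filter, Fin.sum_univ_castSucc]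
  simp

lemma atom'_cast (i : Fin d) : atom (mu' μ j) i.castSucc = atom μ i := by
  rw [atom, atom, left'_cast, mu'_cast]

variable {j σ} (s1 : σ (Fin.last d) = (π j).castSucc) (s2 : σ j.castSucc = Fin.last d)
  (s3 : ∀ i, i ≠ j → σ i.castSucc = (π i).castSucc)
include s1 s2 s3

lemma sum'_cast (m : Fin d) : ∑ k ∈ univ.filter (fun k => σ k < m.castSucc), mu' μ j k =
    ∑ k ∈ univ.filter (fun k => π k < m), μ k := by
  rw [sum_filter, sum_filter, Fin.sum_univ_castSucc, ← add_sum_erase _ _ (mem_univ j),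
    ← add_sum_erase _ _ (mem_univ j), s1, s2, if_neg (Fin.castSucc_lt_last m).not_gt, zero_add,
    add_comm]
  congr 1
  · simp
  · refine sum_congr rfl fun k hk => ?_
    rw [s3 k (ne_of_mem_erase hk)]
    simp

lemma tau'_cast (i : Fin d) (hi : i ≠ j) : tau σ (mu' μ j) i.castSucc = tau π μ i := by
  rw [tau, tau, left'_cast, s3 i hi, sum'_cast s1 s2 s3]

lemma tau'_last : tau σ (mu' μ j) (Fin.last d) = tau π μ j + left μ j - ∑ k, μ k := by
  rw [tau, tau, left'_last, s1, sum'_cast s1 s2 s3]; ring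

lemma tau'_j : tau σ (mu' μ j) j.castSucc = ∑ k, μ k - left μ j := by
  rw [tau, left'_cast, s2, sum_filter, Fin.sum_univ_castSucc, ← add_sum_erase _ _ (mem_univ j),
    ← add_sum_erase _ μ (mem_univ j), s1, s2, if_neg (lt_irrefl _), zero_add,
    if_pos (Fin.castSucc_lt_last _), add_comm, mu'_last]
  congr 2
  refine sum_congr rfl fun k hk => ?_
  rw [s3 k (ne_of_mem_erase hk), if_pos (Fin.castSucc_lt_last _), mu'_cast]

end step

theorem Good.step (hd : 3 ≤ d) {h : ℝ → ℂ} (G : Good π μ h) :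
    ∃ (σ : Equiv.Perm (Fin (d + 1))) (ν : Fin (d + 1) → ℝ) (g : ℝ → ℂ), Good σ ν g := by
  obtain ⟨j, j1, j2⟩ := exists_index hd π
  obtain ⟨σ, s1, s2, s3⟩ := exists_perm π j
  have hμ := G.pos
  set L := ∑ k, μ k with hL
  set c := left μ j with hc
  have c0 : 0 ≤ c := left_nonneg hμ j
  have c1 : c + μ j ≤ L := left_add_le_total hμ j
  have m0 := hμ j
  let g : ℝ → ℂ := fun x => if x ≤ L then h x else h (x - L + c) + (h L - h c)
  have g1 : ∀ x, x ≤ L → g x = h x := fun x hx => if_pos hx
  have g2 : ∀ x, L ≤ x → g x = h (x - L + c) + (h L - h c) := by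
    intro x hx
    rcases hx.eq_or_lt with rfl | hx
    · rw [g1 _ le_rfl]; simp
    · exact if_neg (not_le.2 hx)
  have hpos : ∀ k, 0 < mu' μ j k := fun k => by
    induction k using Fin.lastCases with
    | last => simpa using m0
    | cast k => simpa using hμ k
  have aj : ∀ x, L ≤ x → x < L + μ j → x ∈ atom (mu' μ j) (Fin.last d) := fun x x1 x2 => by
    rw [atom, left'_last, mu'_last]; exact ⟨x1, x2⟩
  have f1 : ∀ x, x ∈ atom μ j → iet σ (mu' μ j) x = x + (L - c) := fun x hx => by
    rw [iet_eq hpos (j := j.castSucc) (by rwa [atom'_cast]), tau'_j s1 s2 s3]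
  have f2 : ∀ x, L ≤ x → x < L + μ j → iet σ (mu' μ j) x = iet π μ (x - L + c) := fun x x1 x2 => by
    rw [iet_eq hpos (aj x x1 x2), tau'_last s1 s2 s3,
      iet_eq hμ (j := j) ⟨by linarith, by linarith⟩]
    ring
  have f3 : ∀ x, x ∈ dom μ → x ∉ atom μ j → iet σ (mu' μ j) x = iet π μ x := fun x hx hj => by
    obtain ⟨i, hi⟩ := exists_atom hx
    have hij : i ≠ j := by rintro rfl; exact hj hi
    rw [iet_eq hpos (j := i.castSucc) (by rwa [atom'_cast]), tau'_cast s1 s2 s3 i hij,
      iet_eq hμ hi]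
  have r1 : ∀ x, L < x → x ≤ L + μ j → (h L).re < (g x).re := fun x x1 x2 => by
    rw [g2 x x1.le, add_re, sub_re]
    have := (G.sepL j).2 (x - L + c) (by linarith) (by linarith)
    linarith
  have r2 : ∀ x, 0 ≤ x → x ≤ L → (h x).re ≤ (h L).re := fun x x1 x2 => by
    rcases x2.eq_or_lt with rfl | x2
    · exact le_rfl
    · exact (G.sepT.1 x x1 x2).le
  refine ⟨σ, mu' μ j, g, ?_, ?_, hpos, ?_, ?_, ?_, ?_, ?_, ?_, ?_⟩
  · intro k k0 k1
    by_cases hk : j.val < k
    · exact ⟨j.castSucc, hk, by rw [s2]; simp; omega⟩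
    · obtain ⟨i, i1, i2⟩ := G.irr k k0 (by have := j.2; omega)
      have hij : i ≠ j := by rintro rfl; exact hk i1
      exact ⟨i.castSucc, i1, by rw [s3 i hij]; exact i2⟩
  · intro i i' hi
    induction i using Fin.lastCases with
    | last => have := i'.2; simp at hi; omega
    | cast i =>
      by_cases hij : i = j
      · rw [hij, s2]
        have := (σ i').2
        simp; omega
      rw [s3 i hij]
      induction i' using Fin.lastCases with
      | last =>
        rw [s1]
        exact j1 i (by simpa using hi.symm)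
      | cast i' =>
        by_cases hij' : i' = j
        · rw [hij', s2]
          have := j2 i (by rw [← hij']; simpa using hi)
          simpa using this.symm
        · rw [s3 i' hij']
          exact G.gen i i' (by simpa using hi)
  · intro x hx p q hpq hp hq
    rw [total'] at hq
    rw [dom, total'] at hx
    have o1 : ∃ x0 ∈ dom μ, ∃ m : ℕ, (iet σ (mu' μ j))^[m] x = x0 := by
      by_cases hxL : x < L
      · exact ⟨x, ⟨hx.1, hxL⟩, 0, rfl⟩
      · refine ⟨_, ?_, 1, rfl⟩
        rw [Function.iterate_one, f2 x (not_lt.1 hxL) hx.2]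
        exact iet_mem hμ ⟨by linarith [not_lt.1 hxL], by linarith [hx.2]⟩
    obtain ⟨x0, hx0, m0, hm0⟩ := o1
    have o2 : ∀ n : ℕ, ∃ m : ℕ, (iet σ (mu' μ j))^[m] x = (iet π μ)^[n] x0 := by
      intro n
      induction n with
      | zero => exact ⟨m0, hm0⟩
      | succ n ih =>
        obtain ⟨m, hm⟩ := ih
        rw [Function.iterate_succ_apply']
        by_cases hj : (iet π μ)^[n] x0 ∈ atom μ j
        · refine ⟨m + 1 + 1, ?_⟩
          rw [Function.iterate_succ_apply', Function.iterate_succ_apply', hm, f1 _ hj,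
            f2 _ (by linarith [hj.1]) (by linarith [hj.2])]
          congr 1
          ring
        · exact ⟨m + 1, by
            rw [Function.iterate_succ_apply', hm, f3 _ (iet_iter_mem hμ hx0 n) hj]⟩
    by_cases hpL : p < L
    · obtain ⟨n, n1, n2⟩ := G.minimal x0 hx0 p (min q L) (lt_min hpq hpL) hp (min_le_right _ _)
      obtain ⟨m, hm⟩ := o2 n
      exact ⟨m, by rwa [hm], by rw [hm]; exact n2.trans_le (min_le_left _ _)⟩
    · have hpL := not_lt.1 hpL
      obtain ⟨n, n1, n2⟩ := G.minimal x0 hx0 (p - L + c) (q - L + c) (by linarith) (by linarith)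
        (by linarith)
      obtain ⟨m, hm⟩ := o2 n
      refine ⟨m + 1, ?_⟩
      rw [Function.iterate_succ_apply', hm, f1 _ ⟨by linarith, by linarith⟩]
      constructor <;> linarith
  · have := G.cont
    refine Continuous.if_le this (by fun_prop) continuous_id continuous_const ?_
    intro x hx
    have hx' : x = L := hx
    simp [hx']
  · intro x y x0 hxy y1 e
    rw [total'] at y1
    by_cases hy : y ≤ L
    · rw [g1 x (by linarith), g1 y hy] at e
      exact G.inj x y x0 hxy hy e
    have hy := not_le.1 hy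
    by_cases hx : x ≤ L
    · have k1 := r1 y hy y1
      have k2 := r2 x x0 hx
      rw [← e, g1 x hx] at k1
      linarith
    · have hx := not_le.1 hx
      rw [g2 x hx.le, g2 y hy.le] at e
      exact G.inj _ _ (by linarith) (by linarith) (by linarith) (add_right_cancel e)
  · intro i
    induction i using Fin.lastCases with
    | last =>
      obtain ⟨u, l, hu, hl⟩ := G.iso j
      refine ⟨u, l - u * (h L - h c), hu, fun x hx => ?_⟩
      rw [atom, left'_last, mu'_last] at hx
      have hx' : x - L + c ∈ atom μ j := ⟨by linarith [hx.1], by linarith [hx.2]⟩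
      have e : x + tau σ (mu' μ j) (Fin.last d) = x - L + c + tau π μ j := by
        rw [tau'_last s1 s2 s3]; ring
      rw [e, g1 _ (add_tau_mem hμ hx').2.le, hl _ hx', g2 x hx.1]
      ring
    | cast i =>
      rw [atom'_cast]
      by_cases hij : i = j
      · refine ⟨1, h L - h c, norm_one, fun x hx => ?_⟩
        rw [hij] at hx ⊢
        rw [tau'_j s1 s2 s3, g2 _ (by linarith [hx.1]), g1 x (by linarith [hx.2]), one_mul]
        congr 2
        ring
      · obtain ⟨u, l, hu, hl⟩ := G.iso i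
        refine ⟨u, l, hu, fun x hx => ?_⟩
        rw [tau'_cast s1 s2 s3 i hij, g1 _ (add_tau_mem hμ hx).2.le,
          g1 x (atom_subset hμ i hx).2.le, hl x hx]
  · intro i
    rw [total']
    have gen : ∀ b, 0 ≤ b → b ≤ L → Sep h L b → Sep g (L + μ j) b := by
      intro b b0 b1 hb
      refine ⟨fun x x0 x1 => ?_, fun x x0 x1 => ?_⟩
      · rw [g1 x (by linarith), g1 b b1]; exact hb.1 x x0 x1
      · rw [g1 b b1]
        by_cases hx : x ≤ L
        · rw [g1 x hx]; exact hb.2 x x0 hx
        · exact (r2 b b0 b1).trans_lt (r1 x (not_le.1 hx) x1)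
    induction i using Fin.lastCases with
    | last => rw [left'_last]; exact gen L (by linarith) le_rfl G.sepT
    | cast i =>
      rw [left'_cast]
      exact gen _ (left_nonneg hμ i) (by linarith [left_add_le_total hμ i, hμ i]) (G.sepL i)
  · rw [total']
    refine ⟨fun x x0 x1 => ?_, fun x x0 x1 => absurd x1 (not_le.2 x0)⟩
    by_cases hx : x ≤ L
    · rw [g1 x hx]
      exact (r2 x x0 hx).trans_lt (r1 _ (by linarith) le_rfl)
    · have hx := not_le.1 hx
      rw [g2 x hx.le, g2 (L + μ j) (by linarith), add_re, add_re]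
      have := (G.sepR j).1 (x - L + c) (by linarith) (by linarith)
      have e : L + μ j - L + c = left μ j + μ j := by ring
      rw [e]
      linarith
  · intro p q hpq hp hq hG
    rw [total'] at hq
    by_cases hpL : p < L
    · refine G.nt p (min q L) (lt_min hpq hpL) hp (min_le_right _ _) ?_
      have := (hG.mono le_rfl (min_le_left q L)).move (g := h) (τ := 0) 1 0 norm_one
        (fun x x1 x2 => by rw [g1 x (x2.le.trans (min_le_right _ _))]; simp)
      simpa using this
    · have hpL := not_lt.1 hpL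
      refine G.nt (p + (c - L)) (q + (c - L)) (by linarith) (by linarith) (by linarith) ?_
      refine hG.move 1 (-(h L - h c)) norm_one fun x x1 x2 => ?_
      rw [g2 x (by linarith)]
      have : x + (c - L) = x - L + c := by ring
      rw [this]
      ring

end Pool.Agent.MP_b9fb92_an.H82
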